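import Pool.Agent.K6.H60.MC.Avg

set_option autoImplicit false

/-! Almost all characters modulo `Q ≥ N`, all `T` at once. -/

namespace Pool.Agent.K6.H60.MC

open Finset
open Pool.Agent.K6.H1.MQ (en ck ck_zero_of ck_bound pow_eq DD)

theorem log_small (A δ : ℝ) (hδ : 0 < δ) : ∃ C : ℝ, 1 ≤ C ∧ ∀ N : ℕ, 1 ≤ N →
    1 + |A| * Real.log N / Real.log 2 ≤ C * (N : ℝ) ^ δ := by
  have h2 : 0 < Real.log 2 := Real.log_pos (by norm_num)
  refine ⟨1 + |A| / Real.log 2 / δ, ?_, ?_⟩
  · have : 0 ≤ |A| / Real.log 2 / δ := by positivity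
    linarith
  · intro N hN
    have hNr : (1 : ℝ) ≤ N := by exact_mod_cast hN
    have h1 : Real.log N ≤ (N : ℝ) ^ δ / δ := Real.log_le_rpow_div (by positivity) hδ
    have h3 : (1 : ℝ) ≤ (N : ℝ) ^ δ := Real.one_le_rpow hNr hδ.le
    calc 1 + |A| * Real.log N / Real.log 2 ≤ (N : ℝ) ^ δ + |A| * ((N : ℝ) ^ δ / δ) / Real.log 2 := by
          apply add_le_add h3
          apply div_le_div_of_nonneg_right _ h2.le
          exact mul_le_mul_of_nonneg_left h1 (abs_nonneg _)
      _ = _ := by ring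

theorem almost (q A ε : ℝ) (hq : 0 < q) (hε : 0 < ε) : ∃ K : ℝ, 1 ≤ K ∧
    ∀ (N Q : ℕ) [NeZero Q] (b : ℕ → ℂ), 1 ≤ N → N ≤ Q → (∀ n ∈ Icc N (2 * N), ‖b n‖ ≤ 1) →
      (Nat.card {χ : DirichletCharacter ℂ Q // ∃ T : ℕ, 1 ≤ T ∧ (T : ℝ) ≤ (N : ℝ) ^ A ∧
        K * (N : ℝ) ^ ε * ((N : ℝ) ^ q + (N : ℝ) ^ (q / 2) * T) <
          ∑ t ∈ Icc 1 T, ‖D χ N b t‖ ^ q} : ℝ) ≤ (N : ℝ) ^ (-(ε / 2)) * Q.totient := by
  classical
  obtain ⟨K0, hK01, hK0⟩ := average0 q (A + 1) (ε / 3) hq (by positivity)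
  obtain ⟨C3, hC31, hC3⟩ := log_small A (ε / 6) (by positivity)
  have h2q : (1 : ℝ) ≤ 2 ^ q := Real.one_le_rpow (by norm_num) hq.le
  set K : ℝ := 2 * K0 * C3 * 2 ^ q with hK
  have hKK : 1 ≤ 2 * K0 * C3 := by nlinarith
  have hK1 : 1 ≤ K := by rw [hK]; nlinarith
  have hK2 : 2 ^ q ≤ K := by rw [hK]; nlinarith
  have hK3 : 2 * K0 * C3 ≤ K := by rw [hK]; nlinarith
  refine ⟨K, hK1, ?_⟩
  intro N Q _ b hN hNQ hb
  have hNr : (1 : ℝ) ≤ N := by exact_mod_cast hN
  rcases hN.eq_or_lt with h1 | hN2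
  · -- `N = 1`
    subst h1
    have hemp : IsEmpty {χ : DirichletCharacter ℂ Q // ∃ T : ℕ, 1 ≤ T ∧ (T : ℝ) ≤ ((1 : ℕ) : ℝ) ^ A ∧
        K * ((1 : ℕ) : ℝ) ^ ε * (((1 : ℕ) : ℝ) ^ q + ((1 : ℕ) : ℝ) ^ (q / 2) * T) <
          ∑ t ∈ Icc 1 T, ‖D χ 1 b t‖ ^ q} := by
      constructor
      rintro ⟨χ, T, hT1, hT2, h⟩
      rw [Nat.cast_one, Real.one_rpow] at hT2
      have hT : T = 1 := by
        have : T ≤ 1 := by exact_mod_cast hT2
        omega
      subst hT
      simp only [Nat.cast_one, Real.one_rpow, mul_one] at h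
      rw [Icc_self, sum_singleton] at h
      have h3 : ‖D χ 1 b ((1 : ℕ) : ℝ)‖ ^ q ≤ 2 ^ q := by
        apply Real.rpow_le_rpow (norm_nonneg _) _ hq.le
        have := D_le χ (N := 1) le_rfl hb ((1 : ℕ) : ℝ)
        simpa using this
      linarith
    rw [Nat.card_of_isEmpty, Nat.cast_zero]
    positivity
  · have hN2' : 2 ≤ N := hN2
    have hN2r : (2 : ℝ) ≤ N := by exact_mod_cast hN2'
    set J : ℕ := ⌊A * Real.log N / Real.log 2⌋₊ + 1 with hJ
    set Sm : DirichletCharacter ℂ Q → ℕ → ℝ := fun χ T => ∑ t ∈ Icc 1 T, ‖D χ N b t‖ ^ q with hSm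
    set Bd : ℕ → ℝ := fun T => (N : ℝ) ^ q + (N : ℝ) ^ (q / 2) * T with hBd
    set lam : ℕ → ℝ := fun j => K / 2 * (N : ℝ) ^ ε * Bd (2 ^ (j + 1)) with hlam
    have hBd0 : ∀ T, 0 < Bd T := by
      intro T
      rw [hBd]
      positivity
    have hlam0 : ∀ j, 0 < lam j := by
      intro j
      have := hBd0 (2 ^ (j + 1))
      rw [hlam]
      positivity
    set Bad : ℕ → Finset (DirichletCharacter ℂ Q) := fun j =>
      univ.filter (fun χ => lam j < Sm χ (2 ^ (j + 1))) with hBad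
    have hlog2 : 0 < Real.log 2 := Real.log_pos (by norm_num)
    -- the exceptional set is covered by the dyadic ones
    have hcov : (Nat.card {χ : DirichletCharacter ℂ Q // ∃ T : ℕ, 1 ≤ T ∧ (T : ℝ) ≤ (N : ℝ) ^ A ∧
        K * (N : ℝ) ^ ε * ((N : ℝ) ^ q + (N : ℝ) ^ (q / 2) * T) <
          ∑ t ∈ Icc 1 T, ‖D χ N b t‖ ^ q} : ℝ) ≤
        ((((range J).filter (fun j => (2 : ℝ) ^ j ≤ (N : ℝ) ^ A)).biUnion Bad).card : ℝ) := by
      rw [Nat.card_eq_fintype_card, Fintype.card_subtype]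
      apply Nat.cast_le.2
      apply card_le_card
      intro χ hχ
      rw [mem_filter] at hχ
      obtain ⟨-, T, hT1, hT2, h⟩ := hχ
      have hTr : (1 : ℝ) ≤ T := by exact_mod_cast hT1
      set j := Nat.log 2 T with hj
      have hj1 : 2 ^ j ≤ T := Nat.pow_log_le_self 2 (by omega)
      have hj2 : T < 2 ^ (j + 1) := Nat.lt_pow_succ_log_self (by norm_num) T
      have hj1r : (2 : ℝ) ^ j ≤ T := by exact_mod_cast hj1
      have hjA : (2 : ℝ) ^ j ≤ (N : ℝ) ^ A := hj1r.trans hT2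
      rw [mem_biUnion]
      refine ⟨j, ?_, ?_⟩
      · rw [mem_filter, mem_range]
        refine ⟨?_, hjA⟩
        have h3 : (j : ℝ) * Real.log 2 ≤ A * Real.log N := by
          have := Real.log_le_log (by positivity) hjA
          rwa [Real.log_pow, Real.log_rpow (by linarith)] at this
        have h4 : (j : ℝ) ≤ A * Real.log N / Real.log 2 := by
          rw [le_div_iff₀ hlog2]
          exact h3
        have h5 : j ≤ ⌊A * Real.log N / Real.log 2⌋₊ := Nat.le_floor h4
        omega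
      · rw [hBad]
        simp only [mem_filter, mem_univ, true_and]
        have h3 : Sm χ T ≤ Sm χ (2 ^ (j + 1)) := by
          rw [hSm]
          apply sum_le_sum_of_subset_of_nonneg
          · exact Icc_subset_Icc_right hj2.le
          · intro t _ _
            positivity
        have h4 : Bd (2 ^ (j + 1)) ≤ 2 * Bd T := by
          rw [hBd]
          have h5 : (((2 ^ (j + 1) : ℕ)) : ℝ) ≤ 2 * T := by
            push_cast
            rw [pow_succ]
            linarith
          have h6 : (0 : ℝ) ≤ (N : ℝ) ^ (q / 2) := by positivity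
          have h7 : (0 : ℝ) ≤ (N : ℝ) ^ q := by positivity
          have h8 := mul_le_mul_of_nonneg_left h5 h6
          simp only
          linarith
        have h5 : lam j ≤ K * (N : ℝ) ^ ε * Bd T := by
          rw [hlam]
          simp only
          have : 0 ≤ K / 2 * (N : ℝ) ^ ε := by positivity
          nlinarith [mul_le_mul_of_nonneg_left h4 this]
        exact lt_of_le_of_lt h5 (lt_of_lt_of_le h h3)
    refine hcov.trans ?_
    -- each of them is small
    have hsm : ∀ j ∈ (range J).filter (fun j => (2 : ℝ) ^ j ≤ (N : ℝ) ^ A), ((Bad j).card : ℝ) ≤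
        2 * K0 / K * (N : ℝ) ^ (ε / 3 - ε) * Q.totient := by
      intro j hj
      rw [mem_filter] at hj
      have hT' : (((2 ^ (j + 1) : ℕ)) : ℝ) ≤ (N : ℝ) ^ (A + 1) := by
        push_cast
        rw [pow_succ, Real.rpow_add (by linarith), Real.rpow_one]
        exact mul_le_mul hj.2 hN2r (by norm_num) (by positivity)
      have h1 := hK0 N (2 ^ (j + 1)) Q b hN Nat.one_le_two_pow hT' hNQ hb
      have h2 : lam j * (Bad j).card ≤ ∑ χ : DirichletCharacter ℂ Q, Sm χ (2 ^ (j + 1)) := by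
        calc lam j * (Bad j).card = ∑ _χ ∈ Bad j, lam j := by rw [sum_const, nsmul_eq_mul, mul_comm]
          _ ≤ ∑ χ ∈ Bad j, Sm χ (2 ^ (j + 1)) := by
              apply sum_le_sum
              intro χ hχ
              exact (mem_filter.1 hχ).2.le
          _ ≤ _ := by
              apply sum_le_sum_of_subset_of_nonneg (subset_univ _)
              intro χ _ _
              exact sum_nonneg fun _ _ => by positivity
      have h3 : lam j * (Bad j).card ≤
          K0 * (N : ℝ) ^ (ε / 3) * Bd (2 ^ (j + 1)) * Q.totient := by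
        refine h2.trans (h1.trans (le_of_eq ?_))
        rw [hBd]
      have hB := hBd0 (2 ^ (j + 1))
      have h4 : (N : ℝ) ^ (ε / 3) = (N : ℝ) ^ (ε / 3 - ε) * (N : ℝ) ^ ε := by
        rw [← Real.rpow_add (by linarith)]
        congr 1
        ring
      have h5 : K0 * (N : ℝ) ^ (ε / 3) * Bd (2 ^ (j + 1)) * Q.totient =
          lam j * (2 * K0 / K * (N : ℝ) ^ (ε / 3 - ε) * Q.totient) := by
        rw [hlam, h4]
        have : K ≠ 0 := by linarith
        field_simp
      rw [h5] at h3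
      exact le_of_mul_le_mul_left h3 (hlam0 j)
    calc ((((range J).filter (fun j => (2 : ℝ) ^ j ≤ (N : ℝ) ^ A)).biUnion Bad).card : ℝ)
        ≤ ∑ j ∈ (range J).filter (fun j => (2 : ℝ) ^ j ≤ (N : ℝ) ^ A), ((Bad j).card : ℝ) := by
          exact_mod_cast card_biUnion_le
      _ ≤ ∑ _j ∈ (range J).filter (fun j => (2 : ℝ) ^ j ≤ (N : ℝ) ^ A),
            2 * K0 / K * (N : ℝ) ^ (ε / 3 - ε) * Q.totient := sum_le_sum hsm
      _ = (((range J).filter (fun j => (2 : ℝ) ^ j ≤ (N : ℝ) ^ A)).card : ℝ) *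
            (2 * K0 / K * (N : ℝ) ^ (ε / 3 - ε) * Q.totient) := by rw [sum_const, nsmul_eq_mul]
      _ ≤ (C3 * (N : ℝ) ^ (ε / 6)) * (2 * K0 / K * (N : ℝ) ^ (ε / 3 - ε) * Q.totient) := by
          apply mul_le_mul_of_nonneg_right _ (by positivity)
          have h1 : (((range J).filter (fun j => (2 : ℝ) ^ j ≤ (N : ℝ) ^ A)).card : ℝ) ≤ J := by
            have := card_filter_le (range J) (fun j => (2 : ℝ) ^ j ≤ (N : ℝ) ^ A)
            rw [card_range] at this
            exact_mod_cast this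
          refine h1.trans (le_trans ?_ (hC3 N hN))
          rw [hJ]
          push_cast
          have h2 : (⌊A * Real.log N / Real.log 2⌋₊ : ℝ) ≤ |A| * Real.log N / Real.log 2 := by
            have h3 : 0 ≤ |A| * Real.log N / Real.log 2 := by
              have := Real.log_natCast_nonneg N
              positivity
            rcases le_or_gt 0 (A * Real.log N / Real.log 2) with h4 | h4
            · refine (Nat.floor_le h4).trans ?_
              apply div_le_div_of_nonneg_right _ hlog2.le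
              exact mul_le_mul_of_nonneg_right (le_abs_self A) (Real.log_natCast_nonneg N)
            · rw [Nat.floor_of_nonpos h4.le, Nat.cast_zero]
              exact h3
          linarith
      _ = (2 * K0 * C3) / K * ((N : ℝ) ^ (ε / 6) * (N : ℝ) ^ (ε / 3 - ε)) * Q.totient := by ring
      _ = (2 * K0 * C3) / K * (N : ℝ) ^ (-(ε / 2)) * Q.totient := by
          rw [← Real.rpow_add (by linarith)]
          congr 3
          ring
      _ ≤ 1 * (N : ℝ) ^ (-(ε / 2)) * Q.totient := by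
          have h1 : 2 * K0 * C3 / K ≤ 1 := by
            rw [div_le_one (by linarith)]
            exact hK3
          have h2 : (0 : ℝ) ≤ (N : ℝ) ^ (-(ε / 2)) * Q.totient := by positivity
          nlinarith
      _ = _ := by rw [one_mul]

end Pool.Agent.K6.H60.MC
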