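import Pool.Agent.K6.H60.MC.Mom

set_option autoImplicit false

/-! All the moments on average over the characters modulo `Q` and the shifts. -/

namespace Pool.Agent.K6.H60.MC

open Finset
open Pool.Agent.K6.H1.MQ (en ck ck_zero_of ck_bound pow_eq DD)

theorem point_split {x l : ℝ} (hx : 0 ≤ x) (hl : 0 < l) {q p : ℝ} (hq : 0 < q) (hqp : q ≤ p) :
    x ^ q ≤ l ^ q + l ^ (q - p) * x ^ p := by
  rcases le_or_gt x l with h | h
  · have : x ^ q ≤ l ^ q := Real.rpow_le_rpow hx h hq.le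
    have h2 : 0 ≤ l ^ (q - p) * x ^ p := by positivity
    linarith
  · have hx0 : 0 < x := hl.trans h
    have h1 : x ^ q = x ^ (q - p) * x ^ p := by
      rw [← Real.rpow_add hx0]; congr 1; ring
    have h2 : x ^ (q - p) ≤ l ^ (q - p) :=
      Real.rpow_le_rpow_of_nonpos hl h.le (by linarith)
    have h3 : x ^ q ≤ l ^ (q - p) * x ^ p := by
      rw [h1]
      exact mul_le_mul_of_nonneg_right h2 (by positivity)
    have h4 : 0 ≤ l ^ q := by positivity
    linarith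

theorem core {ι : Type*} (s : Finset ι) (x : ι → ℝ) (hx0 : ∀ i ∈ s, 0 ≤ x i) {N T : ℝ} (hN : 1 ≤ N)
    (hT : 1 ≤ T) {k : ℕ} (hTk : T ≤ N ^ (k + 1)) (hx2 : ∀ i ∈ s, x i ≤ 2 * N) {W C1 : ℝ} (hW : 0 ≤ W)
    (hC : 1 ≤ C1) (hcard : (s.card : ℝ) ≤ T * W)
    (hmom : ∑ i ∈ s, x i ^ (2 * (k + 1)) ≤ C1 * N ^ (k + 1) * T * W) {q : ℝ} (hq : 0 < q) :
    ∑ i ∈ s, x i ^ q ≤ 2 ^ (q + 1) * C1 * (N ^ q + N ^ (q / 2) * T) * W := by
  set p : ℝ := 2 * (k + 1) with hp
  have hN0 : 0 < N := by linarith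
  have hmom' : ∑ i ∈ s, x i ^ p ≤ C1 * N ^ (p / 2) * T * W := by
    have e1 : N ^ (p / 2) = N ^ (k + 1) := by
      rw [← Real.rpow_natCast]; congr 1; rw [hp]; push_cast; ring
    have e2 : ∀ i, x i ^ p = x i ^ (2 * (k + 1)) := by
      intro i
      rw [← Real.rpow_natCast]; congr 1; rw [hp]; push_cast; ring
    rw [e1, sum_congr rfl fun i _ => e2 i]
    exact hmom
  have h2q : (1 : ℝ) ≤ 2 ^ q := Real.one_le_rpow (by norm_num) hq.le
  have h2q1 : (2 : ℝ) ^ (q + 1) = 2 ^ q * 2 := by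
    rw [Real.rpow_add (by norm_num), Real.rpow_one]
  have hNq : 0 < N ^ q := by positivity
  have hNq2 : 0 < N ^ (q / 2) := by positivity
  rcases le_or_gt q p with h | h
  · have h1 : ∑ i ∈ s, x i ^ q ≤ ∑ i ∈ s, (N ^ (q / 2) + N ^ ((q - p) / 2) * x i ^ p) := by
      apply sum_le_sum
      intro i hi
      have := point_split (hx0 i hi) (l := N ^ (1 / 2 : ℝ)) (by positivity) hq h
      rw [← Real.rpow_mul hN0.le, ← Real.rpow_mul hN0.le] at this
      rw [show (1 / 2 : ℝ) * q = q / 2 by ring, show (1 / 2 : ℝ) * (q - p) = (q - p) / 2 by ring] at this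
      exact this
    rw [sum_add_distrib, sum_const, nsmul_eq_mul, ← mul_sum] at h1
    have h2 : N ^ ((q - p) / 2) * ∑ i ∈ s, x i ^ p ≤ C1 * (N ^ (q / 2) * T * W) := by
      calc _ ≤ N ^ ((q - p) / 2) * (C1 * N ^ (p / 2) * T * W) :=
            mul_le_mul_of_nonneg_left hmom' (by positivity)
        _ = C1 * ((N ^ ((q - p) / 2) * N ^ (p / 2)) * T * W) := by ring
        _ = _ := by
            rw [← Real.rpow_add hN0]
            congr 4
            ring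
    have h3 : (s.card : ℝ) * N ^ (q / 2) ≤ C1 * (N ^ (q / 2) * T * W) := by
      have h4 : (s.card : ℝ) * N ^ (q / 2) ≤ T * W * N ^ (q / 2) :=
        mul_le_mul_of_nonneg_right hcard hNq2.le
      have h5 : 0 ≤ N ^ (q / 2) * T * W := by positivity
      nlinarith
    have h4 : 0 ≤ N ^ (q / 2) * T * W := by positivity
    have h5 : 0 ≤ N ^ q * W := by positivity
    calc ∑ i ∈ s, x i ^ q ≤ 2 * C1 * (N ^ (q / 2) * T * W) := by linarith
      _ ≤ 2 ^ (q + 1) * C1 * (N ^ (q / 2) * T * W) := by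
          apply mul_le_mul_of_nonneg_right _ h4
          rw [h2q1]
          nlinarith
      _ ≤ _ := by
          have : 0 ≤ 2 ^ (q + 1) * C1 * (N ^ q * W) := by positivity
          nlinarith
  · have h1 : ∑ i ∈ s, x i ^ q ≤ ∑ i ∈ s, (2 * N) ^ (q - p) * x i ^ p := by
      apply sum_le_sum
      intro i hi
      rcases (hx0 i hi).eq_or_lt with h0 | h0
      · rw [← h0, Real.zero_rpow hq.ne']
        positivity
      · have : x i ^ q = x i ^ (q - p) * x i ^ p := by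
          rw [← Real.rpow_add h0]; congr 1; ring
        rw [this]
        apply mul_le_mul_of_nonneg_right _ (by positivity)
        exact Real.rpow_le_rpow h0.le (hx2 i hi) (by linarith)
    rw [← mul_sum] at h1
    have hp0 : 0 < p := by positivity
    have hT' : T ≤ N ^ (p / 2) := by
      have e1 : N ^ (p / 2) = N ^ (k + 1) := by
        rw [← Real.rpow_natCast]; congr 1; rw [hp]; push_cast; ring
      rw [e1]; exact hTk
    calc ∑ i ∈ s, x i ^ q ≤ (2 * N) ^ (q - p) * (C1 * N ^ (p / 2) * T * W) :=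
          h1.trans (mul_le_mul_of_nonneg_left hmom' (by positivity))
      _ ≤ (2 * N) ^ (q - p) * (C1 * N ^ (p / 2) * N ^ (p / 2) * W) := by
          apply mul_le_mul_of_nonneg_left _ (by positivity)
          apply mul_le_mul_of_nonneg_right _ hW
          exact mul_le_mul_of_nonneg_left hT' (by positivity)
      _ = 2 ^ (q - p) * (C1 * (N ^ (q - p) * N ^ (p / 2) * N ^ (p / 2)) * W) := by
          rw [Real.mul_rpow (by norm_num) hN0.le]; ring
      _ = 2 ^ (q - p) * (C1 * N ^ q * W) := by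
          rw [← Real.rpow_add hN0, ← Real.rpow_add hN0]
          congr 4
          ring
      _ ≤ 2 ^ (q + 1) * (C1 * N ^ q * W) := by
          apply mul_le_mul_of_nonneg_right _ (by positivity)
          exact Real.rpow_le_rpow_of_exponent_le (by norm_num) (by linarith)
      _ ≤ _ := by
          have : 0 ≤ 2 ^ (q + 1) * C1 * (N ^ (q / 2) * T * W) := by positivity
          nlinarith

theorem D_le {Q : ℕ} (χ : DirichletCharacter ℂ Q) {N : ℕ} (hN : 1 ≤ N) {b : ℕ → ℂ}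
    (hb : ∀ n ∈ Icc N (2 * N), ‖b n‖ ≤ 1) (t : ℝ) : ‖D χ N b t‖ ≤ 2 * N := by
  unfold D
  calc _ ≤ ∑ n ∈ Icc N (2 * N), ‖b n * χ (n : ZMod Q) * en n t‖ := norm_sum_le _ _
    _ ≤ ∑ _n ∈ Icc N (2 * N), (1 : ℝ) := by
        apply sum_le_sum
        intro n hn
        rw [norm_mul, norm_mul]
        have h1 : ‖en n t‖ = 1 := by
          unfold en
          rw [show Complex.I * (t : ℂ) * ((Real.log n : ℝ) : ℂ) =
            ((t * Real.log n : ℝ) : ℂ) * Complex.I by push_cast; ring,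
            Complex.norm_exp_ofReal_mul_I]
        rw [h1, mul_one]
        exact mul_le_one₀ (hb n hn) (norm_nonneg _) (χ.norm_le_one _)
    _ = ((N + 1 : ℕ) : ℝ) := by
        rw [sum_const, Nat.card_Icc, nsmul_eq_mul, mul_one]
        congr 1
        omega
    _ ≤ _ := by
        have : (1 : ℝ) ≤ N := by exact_mod_cast hN
        push_cast
        linarith

theorem exists_k {N T : ℕ} (hN : 1 ≤ N) (hT : 1 ≤ T) {A : ℝ} (hTA : (T : ℝ) ≤ (N : ℝ) ^ A) :
    ∃ k ∈ range (⌈A⌉₊ + 1), N ^ k ≤ T ∧ T ≤ N ^ (k + 1) := by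
  rcases hN.eq_or_lt with h | h
  · subst h
    refine ⟨0, by simp, by simpa using hT, ?_⟩
    rw [Nat.cast_one, Real.one_rpow] at hTA
    have : T ≤ 1 := by exact_mod_cast hTA
    simpa using this
  · have h1 := Nat.pow_log_le_self N (by omega : T ≠ 0)
    have h2 := Nat.lt_pow_succ_log_self h T
    refine ⟨Nat.log N T, ?_, h1, h2.le⟩
    rw [mem_range]
    have hN1 : (1 : ℝ) < N := by exact_mod_cast h
    have h3 : (N : ℝ) ^ ((Nat.log N T : ℕ) : ℝ) ≤ (N : ℝ) ^ A := by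
      rw [Real.rpow_natCast]
      exact le_trans (by exact_mod_cast h1) hTA
    have h4 : ((Nat.log N T : ℕ) : ℝ) ≤ A := (Real.rpow_le_rpow_left_iff hN1).1 h3
    have h5 : Nat.log N T ≤ ⌈A⌉₊ := by
      have := Nat.le_ceil A
      exact_mod_cast h4.trans this
    omega

theorem card_char (Q : ℕ) [NeZero Q] :
    ((univ : Finset (DirichletCharacter ℂ Q)).card : ℝ) = Q.totient := by
  have := DirichletCharacter.card_eq_totient_of_hasEnoughRootsOfUnity ℂ Q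
  rw [Nat.card_eq_fintype_card] at this
  rw [card_univ, this]

/-- All the moments, on average over the characters `χ` modulo `Q` and the shifts `τ < H`, if
`N T ≤ Q H` and `T ≤ H`. -/
theorem average (q A ε : ℝ) (hq : 0 < q) (hε : 0 < ε) : ∃ K : ℝ, 1 ≤ K ∧
    ∀ (N T H Q : ℕ) [NeZero Q] (b : ℕ → ℂ), 1 ≤ N → 1 ≤ T → (T : ℝ) ≤ (N : ℝ) ^ A → T ≤ H →
      N * T ≤ Q * H → (∀ n ∈ Icc N (2 * N), ‖b n‖ ≤ 1) →
      ∑ χ : DirichletCharacter ℂ Q, ∑ τ ∈ range H, ∑ t ∈ Icc 1 T, ‖D χ N b (τ + t)‖ ^ q ≤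
        K * (N : ℝ) ^ ε * ((N : ℝ) ^ q + (N : ℝ) ^ (q / 2) * T) * (Q.totient * H) := by
  classical
  choose C hC1 hC using fun k : ℕ => moment (k + 1) ε hε
  have hC0 : ∀ k, 0 ≤ C k := fun k => zero_le_one.trans (hC1 k)
  have hsum : 1 ≤ ∑ k ∈ range (⌈A⌉₊ + 1), C k := by
    calc (1 : ℝ) ≤ C 0 := hC1 0
      _ ≤ _ := single_le_sum (fun k _ => hC0 k) (by simp)
  have h2q : (1 : ℝ) ≤ 2 ^ (q + 1) := Real.one_le_rpow (by norm_num) (by linarith)
  refine ⟨2 ^ (q + 1) * (3 * ∑ k ∈ range (⌈A⌉₊ + 1), C k), by nlinarith, ?_⟩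
  intro N T H Q _ b hN hT hTA hTH hNT hb
  have hNr : (1 : ℝ) ≤ N := by exact_mod_cast hN
  have hTr : (1 : ℝ) ≤ T := by exact_mod_cast hT
  have hQ1 : 1 ≤ Q := NeZero.one_le
  have hQr : (1 : ℝ) ≤ Q := by exact_mod_cast hQ1
  have hHr : (1 : ℝ) ≤ H := by exact_mod_cast hT.trans hTH
  obtain ⟨k, hk, hk1, hk2⟩ := exists_k hN hT hTA
  have hk1r : (N : ℝ) ^ k ≤ T := by exact_mod_cast hk1
  have hk2r : (T : ℝ) ≤ (N : ℝ) ^ (k + 1) := by exact_mod_cast hk2
  have hNTr : (N : ℝ) * T ≤ Q * H := by exact_mod_cast hNT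
  set C1 : ℝ := 3 * C k * (N : ℝ) ^ ε with hC1d
  have hNe : (1 : ℝ) ≤ (N : ℝ) ^ ε := Real.one_le_rpow hNr hε.le
  have hC11 : 1 ≤ C1 := by
    rw [hC1d]
    nlinarith [hC1 k]
  set W : ℝ := Q.totient * H with hW
  have hW0 : 0 ≤ W := by positivity
  -- the even moment
  have hmom : ∑ i ∈ (univ : Finset (DirichletCharacter ℂ Q)) ×ˢ (range H ×ˢ Icc 1 T),
      ‖D i.1 N b ((i.2.1 : ℝ) + i.2.2)‖ ^ (2 * (k + 1)) ≤ C1 * (N : ℝ) ^ (k + 1) * T * W := by
    rw [sum_product]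
    simp only [sum_product]
    have h1 : ∀ χ : DirichletCharacter ℂ Q, ∑ τ ∈ range H, ∑ t ∈ Icc 1 T,
        ‖D χ N b ((τ : ℝ) + t)‖ ^ (2 * (k + 1)) ≤
        T * ∑ s ∈ Icc 1 (H + T), ‖D χ N b s‖ ^ (2 * (k + 1)) := by
      intro χ
      rw [sum_comm]
      calc ∑ t ∈ Icc 1 T, ∑ τ ∈ range H, ‖D χ N b ((τ : ℝ) + t)‖ ^ (2 * (k + 1))
          ≤ ∑ t ∈ Icc 1 T, ∑ s ∈ Icc 1 (H + T), ‖D χ N b s‖ ^ (2 * (k + 1)) := by
            apply sum_le_sum
            intro t ht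
            rw [mem_Icc] at ht
            have h2 : ∑ τ ∈ range H, ‖D χ N b ((τ : ℝ) + t)‖ ^ (2 * (k + 1)) =
                ∑ s ∈ (range H).image (fun τ => τ + t), ‖D χ N b s‖ ^ (2 * (k + 1)) := by
              rw [sum_image (fun x _ y _ h => Nat.add_right_cancel h)]
              apply sum_congr rfl
              intro τ _
              push_cast
              rfl
            rw [h2]
            apply sum_le_sum_of_subset_of_nonneg
            · intro s hs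
              rw [mem_image] at hs
              obtain ⟨τ, hτ, rfl⟩ := hs
              rw [mem_range] at hτ
              rw [mem_Icc]
              omega
            · intro s _ _
              positivity
        _ = T * ∑ s ∈ Icc 1 (H + T), ‖D χ N b s‖ ^ (2 * (k + 1)) := by
            rw [sum_const, Nat.card_Icc, Nat.add_sub_cancel, nsmul_eq_mul]
    have h2 := hC k N (H + T) Q b hN (by omega) hb
    have h3 : ((H + T : ℕ) : ℝ) + (N : ℝ) ^ (k + 1) / Q ≤ 3 * H := by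
      have a1 : (T : ℝ) ≤ H := by exact_mod_cast hTH
      have a2 : (N : ℝ) ^ (k + 1) / Q ≤ H := by
        rw [div_le_iff₀ (by linarith)]
        calc (N : ℝ) ^ (k + 1) = N * (N : ℝ) ^ k := by rw [pow_succ]; ring
          _ ≤ N * T := mul_le_mul_of_nonneg_left hk1r (by positivity)
          _ ≤ Q * H := hNTr
          _ = H * Q := mul_comm _ _
      push_cast
      linarith
    calc ∑ χ : DirichletCharacter ℂ Q, ∑ τ ∈ range H, ∑ t ∈ Icc 1 T,
        ‖D χ N b ((τ : ℝ) + t)‖ ^ (2 * (k + 1))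
        ≤ ∑ χ : DirichletCharacter ℂ Q, T * ∑ s ∈ Icc 1 (H + T), ‖D χ N b s‖ ^ (2 * (k + 1)) :=
          sum_le_sum fun χ _ => h1 χ
      _ = T * ∑ χ : DirichletCharacter ℂ Q, ∑ s ∈ Icc 1 (H + T), ‖D χ N b s‖ ^ (2 * (k + 1)) := by
          rw [mul_sum]
      _ ≤ T * (Q.totient * (C k * (N : ℝ) ^ ε * (((H + T : ℕ) : ℝ) + (N : ℝ) ^ (k + 1) / Q) *
            (N : ℝ) ^ (k + 1))) := mul_le_mul_of_nonneg_left h2 (by positivity)
      _ ≤ T * (Q.totient * (C k * (N : ℝ) ^ ε * (3 * H) * (N : ℝ) ^ (k + 1))) := by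
          have := hC0 k
          gcongr
      _ = _ := by rw [hC1d, hW]; ring
  have hcard : (((univ : Finset (DirichletCharacter ℂ Q)) ×ˢ (range H ×ˢ Icc 1 T)).card : ℝ) ≤
      T * W := by
    rw [card_product, card_product, card_range, Nat.card_Icc, Nat.add_sub_cancel]
    push_cast
    rw [card_char, hW]
    exact le_of_eq (by ring)
  have := core ((univ : Finset (DirichletCharacter ℂ Q)) ×ˢ (range H ×ˢ Icc 1 T))
    (fun i => ‖D i.1 N b ((i.2.1 : ℝ) + i.2.2)‖) (fun i _ => norm_nonneg _) hNr hTr hk2r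
    (fun i _ => D_le i.1 hN hb _) hW0 hC11 hcard hmom hq
  rw [sum_product] at this
  simp only [sum_product] at this
  refine this.trans ?_
  have hle : C k ≤ ∑ k ∈ range (⌈A⌉₊ + 1), C k := single_le_sum (fun k _ => hC0 k) hk
  rw [hC1d]
  have h5 : 0 ≤ ((N : ℝ) ^ q + (N : ℝ) ^ (q / 2) * T) * W := by positivity
  calc 2 ^ (q + 1) * (3 * C k * (N : ℝ) ^ ε) * ((N : ℝ) ^ q + (N : ℝ) ^ (q / 2) * T) * W
      = C k * (2 ^ (q + 1) * 3 * (N : ℝ) ^ ε * (((N : ℝ) ^ q + (N : ℝ) ^ (q / 2) * T) * W)) := by ring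
    _ ≤ (∑ k ∈ range (⌈A⌉₊ + 1), C k) *
        (2 ^ (q + 1) * 3 * (N : ℝ) ^ ε * (((N : ℝ) ^ q + (N : ℝ) ^ (q / 2) * T) * W)) :=
        mul_le_mul_of_nonneg_right hle (by positivity)
    _ = _ := by ring

/-- the same without shifts, for `N ≤ Q` -/
theorem average0 (q A ε : ℝ) (hq : 0 < q) (hε : 0 < ε) : ∃ K : ℝ, 1 ≤ K ∧
    ∀ (N T Q : ℕ) [NeZero Q] (b : ℕ → ℂ), 1 ≤ N → 1 ≤ T → (T : ℝ) ≤ (N : ℝ) ^ A →
      N ≤ Q → (∀ n ∈ Icc N (2 * N), ‖b n‖ ≤ 1) →
      ∑ χ : DirichletCharacter ℂ Q, ∑ t ∈ Icc 1 T, ‖D χ N b t‖ ^ q ≤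
        K * (N : ℝ) ^ ε * ((N : ℝ) ^ q + (N : ℝ) ^ (q / 2) * T) * Q.totient := by
  classical
  choose C hC1 hC using fun k : ℕ => moment (k + 1) ε hε
  have hC0 : ∀ k, 0 ≤ C k := fun k => zero_le_one.trans (hC1 k)
  have hsum : 1 ≤ ∑ k ∈ range (⌈A⌉₊ + 1), C k := by
    calc (1 : ℝ) ≤ C 0 := hC1 0
      _ ≤ _ := single_le_sum (fun k _ => hC0 k) (by simp)
  have h2q : (1 : ℝ) ≤ 2 ^ (q + 1) := Real.one_le_rpow (by norm_num) (by linarith)
  refine ⟨2 ^ (q + 1) * (2 * ∑ k ∈ range (⌈A⌉₊ + 1), C k), by nlinarith, ?_⟩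
  intro N T Q _ b hN hT hTA hNQ hb
  have hNr : (1 : ℝ) ≤ N := by exact_mod_cast hN
  have hTr : (1 : ℝ) ≤ T := by exact_mod_cast hT
  have hNQr : (N : ℝ) ≤ Q := by exact_mod_cast hNQ
  obtain ⟨k, hk, hk1, hk2⟩ := exists_k hN hT hTA
  have hk1r : (N : ℝ) ^ k ≤ T := by exact_mod_cast hk1
  have hk2r : (T : ℝ) ≤ (N : ℝ) ^ (k + 1) := by exact_mod_cast hk2
  set C1 : ℝ := 2 * C k * (N : ℝ) ^ ε with hC1d
  have hNe : (1 : ℝ) ≤ (N : ℝ) ^ ε := Real.one_le_rpow hNr hε.le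
  have hC11 : 1 ≤ C1 := by
    rw [hC1d]
    nlinarith [hC1 k]
  set W : ℝ := (Q.totient : ℝ) with hW
  have hW0 : 0 ≤ W := by positivity
  have hmom : ∑ i ∈ (univ : Finset (DirichletCharacter ℂ Q)) ×ˢ Icc 1 T,
      ‖D i.1 N b (i.2 : ℝ)‖ ^ (2 * (k + 1)) ≤ C1 * (N : ℝ) ^ (k + 1) * T * W := by
    rw [sum_product]
    refine (hC k N T Q b hN hT hb).trans ?_
    have h3 : (T : ℝ) + (N : ℝ) ^ (k + 1) / Q ≤ 2 * T := by
      have a2 : (N : ℝ) ^ (k + 1) / Q ≤ T := by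
        rw [div_le_iff₀ (by linarith)]
        calc (N : ℝ) ^ (k + 1) = N * (N : ℝ) ^ k := by rw [pow_succ]; ring
          _ ≤ Q * T := mul_le_mul hNQr hk1r (by positivity) (by positivity)
          _ = T * Q := mul_comm _ _
      linarith
    calc (Q.totient : ℝ) * (C k * (N : ℝ) ^ ε * ((T : ℝ) + (N : ℝ) ^ (k + 1) / Q) *
            (N : ℝ) ^ (k + 1))
        ≤ Q.totient * (C k * (N : ℝ) ^ ε * (2 * T) * (N : ℝ) ^ (k + 1)) := by
          have := hC0 k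
          gcongr
      _ = _ := by rw [hC1d, hW]; ring
  have hcard : (((univ : Finset (DirichletCharacter ℂ Q)) ×ˢ Icc 1 T).card : ℝ) ≤ T * W := by
    rw [card_product, Nat.card_Icc, Nat.add_sub_cancel]
    push_cast
    rw [card_char, hW]
    exact le_of_eq (by ring)
  have := core ((univ : Finset (DirichletCharacter ℂ Q)) ×ˢ Icc 1 T)
    (fun i => ‖D i.1 N b (i.2 : ℝ)‖) (fun i _ => norm_nonneg _) hNr hTr hk2r
    (fun i _ => D_le i.1 hN hb _) hW0 hC11 hcard hmom hq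
  rw [sum_product] at this
  refine this.trans ?_
  have hle : C k ≤ ∑ k ∈ range (⌈A⌉₊ + 1), C k := single_le_sum (fun k _ => hC0 k) hk
  rw [hC1d]
  calc 2 ^ (q + 1) * (2 * C k * (N : ℝ) ^ ε) * ((N : ℝ) ^ q + (N : ℝ) ^ (q / 2) * T) * W
      = C k * (2 ^ (q + 1) * 2 * (N : ℝ) ^ ε * (((N : ℝ) ^ q + (N : ℝ) ^ (q / 2) * T) * W)) := by ring
    _ ≤ (∑ k ∈ range (⌈A⌉₊ + 1), C k) *
        (2 ^ (q + 1) * 2 * (N : ℝ) ^ ε * (((N : ℝ) ^ q + (N : ℝ) ^ (q / 2) * T) * W)) :=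
        mul_le_mul_of_nonneg_right hle (by positivity)
    _ = _ := by ring

end Pool.Agent.K6.H60.MC
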