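import Pool.Agent.K6.H60.MC.Mv

set_option autoImplicit false

/-! Powers of twisted Dirichlet polynomials, and the mean over the characters. -/

namespace Pool.Agent.K6.H60.MC

open Finset
open Pool.Agent.K6.H1.MQ (en ck ck_zero_of ck_bound pow_eq DD)

theorem ck_mul (f : ℕ → ℂ) (hf1 : f 1 = 1) (hf : ∀ m n, 1 ≤ m → 1 ≤ n → f (m * n) = f m * f n)
    (N : ℕ) (b : ℕ → ℂ)
    (k : ℕ) : ∀ n : ℕ, ck N (fun n => b n * f n) k n = ck N b k n * f n := by
  induction k with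
  | zero =>
    intro n
    unfold ck
    split_ifs with h
    · rw [h, hf1, mul_one]
    · rw [zero_mul]
  | succ k ih =>
    intro n
    unfold ck
    rw [sum_mul]
    apply sum_congr rfl
    intro m hm
    rw [mem_filter, Nat.mem_divisors] at hm
    have hn1 : 1 ≤ n := Nat.pos_of_ne_zero hm.1.2
    have hm1 : 1 ≤ m := Nat.pos_of_dvd_of_pos hm.1.1 hn1
    have h1 : f n = f m * f (n / m) := by
      rw [← hf m (n / m) hm1 (Nat.div_pos (Nat.le_of_dvd hn1 hm.1.1) hm1),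
        Nat.mul_div_cancel' hm.1.1]
    rw [ih m, h1]
    ring

/-- powers of `∑ b_n f(n) n^{it}` for a completely multiplicative `f` -/
theorem pow_twist {N : ℕ} (hN : 1 ≤ N) (f : ℕ → ℂ) (hf1 : f 1 = 1)
    (hf : ∀ m n, 1 ≤ m → 1 ≤ n → f (m * n) = f m * f n) (b : ℕ → ℂ) (t : ℝ) (k : ℕ) :
    (∑ n ∈ Icc N (2 * N), b n * f n * en n t) ^ k =
      ∑ n ∈ Icc 1 ((2 * N) ^ k), ck N b k n * f n * en n t := by
  have h := pow_eq hN (fun n => b n * f n) t k
  unfold DD at h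
  rw [h]
  apply sum_congr rfl
  intro n _
  rw [ck_mul f hf1 hf]

theorem orth {Q : ℕ} [NeZero Q] (a b : (ZMod Q)ˣ) :
    ∑ χ : DirichletCharacter ℂ Q, χ (a : ZMod Q) * (starRingEnd ℂ) (χ (b : ZMod Q)) =
      if b = a then (Q.totient : ℂ) else 0 := by
  have h := DirichletCharacter.sum_char_inv_mul_char_eq ℂ b.isUnit (a : ZMod Q)
  have h2 : ∀ χ : DirichletCharacter ℂ Q, χ (a : ZMod Q) * (starRingEnd ℂ) (χ (b : ZMod Q)) =
      χ ((b : ZMod Q)⁻¹) * χ (a : ZMod Q) := by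
    intro χ
    rw [mul_comm]
    congr 1
    have hn : ‖χ (b : ZMod Q)‖ = 1 := DirichletCharacter.unit_norm_eq_one χ b
    rw [← Complex.inv_eq_conj hn]
    rw [inv_eq_iff_eq_inv, eq_comm, inv_eq_iff_eq_inv]
    have h3 : χ ((b : ZMod Q)⁻¹) * χ (b : ZMod Q) = 1 := by
      rw [← map_mul, ZMod.inv_mul_of_unit _ b.isUnit, map_one]
    exact eq_inv_of_mul_eq_one_left h3
  rw [sum_congr rfl fun χ _ => h2 χ, h]
  simp [Units.ext_iff]

theorem parseval {Q : ℕ} [NeZero Q] (J : Finset ℕ) (y : ℕ → ℂ) :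
    ∑ χ : DirichletCharacter ℂ Q, ‖∑ m ∈ J, y m * χ (m : ZMod Q)‖ ^ 2 =
      (Q.totient : ℝ) * ∑ a : (ZMod Q)ˣ,
        ‖∑ m ∈ J.filter (fun m : ℕ => (m : ZMod Q) = a), y m‖ ^ 2 := by
  classical
  set z : (ZMod Q)ˣ → ℂ := fun a => ∑ m ∈ J.filter (fun m : ℕ => (m : ZMod Q) = a), y m with hz
  have h1 : ∀ χ : DirichletCharacter ℂ Q, ∑ m ∈ J, y m * χ (m : ZMod Q) =
      ∑ a : (ZMod Q)ˣ, z a * χ (a : ZMod Q) := by
    intro χ
    rw [hz]
    simp only [sum_mul, sum_filter]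
    rw [sum_comm]
    apply sum_congr rfl
    intro m _
    by_cases hu : IsUnit (m : ZMod Q)
    · obtain ⟨u, hu⟩ := hu
      rw [Finset.sum_eq_single u]
      · rw [if_pos hu.symm, hu]
      · intro v _ hv
        rw [if_neg, zero_mul]
        intro h
        apply hv
        ext
        rw [hu, h]
      · intro h
        exact absurd (mem_univ u) h
    · rw [MulChar.map_nonunit χ hu, mul_zero]
      symm
      apply sum_eq_zero
      intro a _
      rw [if_neg, zero_mul]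
      intro h
      apply hu
      rw [h]
      exact a.isUnit
  have h2 : ((∑ χ : DirichletCharacter ℂ Q, ‖∑ m ∈ J, y m * χ (m : ZMod Q)‖ ^ 2 : ℝ) : ℂ) =
      (((Q.totient : ℝ) * ∑ a : (ZMod Q)ˣ, ‖z a‖ ^ 2 : ℝ) : ℂ) := by
    push_cast
    have h3 : ∀ χ : DirichletCharacter ℂ Q, ((‖∑ m ∈ J, y m * χ (m : ZMod Q)‖ : ℂ)) ^ 2 =
        ∑ a : (ZMod Q)ˣ, ∑ b : (ZMod Q)ˣ, z a * (starRingEnd ℂ) (z b) *
          (χ (a : ZMod Q) * (starRingEnd ℂ) (χ (b : ZMod Q))) := by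
      intro χ
      rw [h1 χ, ← Complex.conj_mul', mul_comm, map_sum, sum_mul_sum]
      apply sum_congr rfl
      intro a _
      apply sum_congr rfl
      intro b _
      rw [map_mul]
      ring
    rw [sum_congr rfl fun χ _ => h3 χ, sum_comm, mul_sum]
    apply sum_congr rfl
    intro a _
    rw [sum_comm]
    have h4 : ∀ b : (ZMod Q)ˣ, ∑ χ : DirichletCharacter ℂ Q, z a * (starRingEnd ℂ) (z b) *
          (χ (a : ZMod Q) * (starRingEnd ℂ) (χ (b : ZMod Q))) =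
        if b = a then z a * (starRingEnd ℂ) (z b) * (Q.totient : ℂ) else 0 := by
      intro b
      rw [← mul_sum, orth a b]
      split_ifs
      · rfl
      · rw [mul_zero]
    rw [sum_congr rfl fun b _ => h4 b, Finset.sum_ite_eq' univ a, if_pos (mem_univ a),
      Complex.mul_conj']
    ring
  exact_mod_cast h2

end Pool.Agent.K6.H60.MC
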