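import Pool.Agent.K6.H60.MC.Rnd2

set_option autoImplicit false

/-! The product of the Haar measures on the circles. -/

namespace Pool.Agent.K6.H60.MC

open Finset MeasureTheory ProbabilityTheory Filter

instance : IsProbabilityMeasure (volume : Measure UnitAddCircle) := ⟨UnitAddCircle.measure_univ⟩

/-- the values at the primes -/
noncomputable def XX (p : ℕ) (θ : ℕ → UnitAddCircle) : ℂ := ((θ p).toCircle : ℂ)

theorem cont_circ : Continuous fun x : UnitAddCircle => (x.toCircle : ℂ) :=
  continuous_subtype_val.comp AddCircle.continuous_toCircle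

theorem meas_XX (p : ℕ) : Measurable (XX p) :=
  cont_circ.measurable.comp (measurable_pi_apply p)

theorem norm_XX (p : ℕ) (θ : ℕ → UnitAddCircle) : ‖XX p θ‖ = 1 := Circle.norm_coe _

theorem indep_XX : iIndepFun XX (Measure.infinitePi fun _ : ℕ => (volume : Measure UnitAddCircle)) :=
  iIndepFun_infinitePi (X := fun (_ : ℕ) (x : UnitAddCircle) => (x.toCircle : ℂ))
    (fun _ => cont_circ.measurable)

theorem mom_XX (p k : ℕ) (hk : 1 ≤ k) :
    ∫ θ, XX p θ ^ k ∂(Measure.infinitePi fun _ : ℕ => (volume : Measure UnitAddCircle)) = 0 := by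
  have h1 := measurePreserving_eval_infinitePi (fun _ : ℕ => (volume : Measure UnitAddCircle)) p
  have h2 : ∫ θ, XX p θ ^ k ∂(Measure.infinitePi fun _ : ℕ => (volume : Measure UnitAddCircle)) =
      ∫ x : UnitAddCircle, (x.toCircle : ℂ) ^ k := by
    have h4 := integral_map (μ := Measure.infinitePi fun _ : ℕ => (volume : Measure UnitAddCircle))
      (φ := Function.eval p) (measurable_pi_apply p).aemeasurable
      (f := fun x : UnitAddCircle => (x.toCircle : ℂ) ^ k) (cont_circ.pow k).aestronglyMeasurable
    rw [h1.map_eq] at h4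
    exact h4.symm
  rw [h2]
  have h3 : ∀ x : UnitAddCircle, (x.toCircle : ℂ) ^ k = fourier (k : ℤ) x := by
    intro x
    rw [fourier_apply, AddCircle.toCircle_zsmul]
    simp
  simp only [h3]
  have hk0 : (k : ℤ) ≠ 0 := by omega
  exact integral_eq_zero_of_add_right_eq_neg (μ := (volume : Measure UnitAddCircle))
    (fourier_add_half_inv_index hk0 one_pos)

end Pool.Agent.K6.H60.MC
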