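import Pool.Agent.K6.H60.MC.Ch

set_option autoImplicit false

/-! The even moments on average over the characters modulo `Q`. -/

namespace Pool.Agent.K6.H60.MC

open Finset
open Pool.Agent.K6.H1.MQ (en ck ck_zero_of ck_bound pow_eq DD)

/-- `D(t) = ∑_{N ≤ n ≤ 2N} b_n χ(n) n^{it}` -/
noncomputable def D {Q : ℕ} (χ : DirichletCharacter ℂ Q) (N : ℕ) (b : ℕ → ℂ) (t : ℝ) : ℂ :=
  ∑ n ∈ Icc N (2 * N), b n * χ (n : ZMod Q) * en n t

/-- the coefficients of the powers are small -/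
theorem ck_le (k : ℕ) (ε : ℝ) (hε : 0 < ε) : ∃ C : ℝ, 1 ≤ C ∧ ∀ (N : ℕ) (b : ℕ → ℂ), 1 ≤ N →
    (∀ n ∈ Icc N (2 * N), ‖b n‖ ≤ 1) → ∀ n, ‖ck N b k n‖ ≤ C * (N : ℝ) ^ ε := by
  set δ : ℝ := ε / ((k : ℝ) * k + 1) with hδ
  have hk0 : (0 : ℝ) ≤ (k : ℝ) * k := by positivity
  have hδ0 : 0 < δ := by positivity
  obtain ⟨C, hC0, hC⟩ := Pool.Agent.H510R2.divisor_bound δ hδ0
  set C1 : ℝ := max C 1 with hC1
  have hC11 : 1 ≤ C1 := le_max_right _ _
  set M : ℝ := (C1 * 2 ^ (δ * k)) ^ k with hM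
  have h2 : (1 : ℝ) ≤ 2 ^ (δ * k) := Real.one_le_rpow (by norm_num) (by positivity)
  have hbase : 1 ≤ C1 * 2 ^ (δ * k) := by nlinarith
  have hM1 : 1 ≤ M := one_le_pow₀ hbase
  refine ⟨M, hM1, ?_⟩
  intro N b hN hb
  have hNr : (1 : ℝ) ≤ N := by exact_mod_cast hN
  intro n
  by_cases hn : n ∈ Icc 1 ((2 * N) ^ k)
  · have hn' := mem_Icc.1 hn
    refine (ck_bound hb k n hn'.1).trans ?_
    have hnr : (n : ℝ) ≤ ((2 : ℝ) * N) ^ k := by exact_mod_cast hn'.2
    have h3 : (n.divisors.card : ℝ) ≤ C1 * 2 ^ (δ * k) * (N : ℝ) ^ (δ * k) := by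
      calc (n.divisors.card : ℝ) ≤ C * (n : ℝ) ^ δ := hC n hn'.1
        _ ≤ C1 * (((2 : ℝ) * N) ^ k) ^ δ := by
            apply mul_le_mul (le_max_left _ _) _ (by positivity) (by positivity)
            exact Real.rpow_le_rpow (by positivity) hnr hδ0.le
        _ = C1 * 2 ^ (δ * k) * (N : ℝ) ^ (δ * k) := by
            rw [← Real.rpow_natCast, ← Real.rpow_mul (by positivity), mul_comm (k : ℝ) δ,
              Real.mul_rpow (by norm_num) (by positivity)]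
            ring
    calc (n.divisors.card : ℝ) ^ k ≤ (C1 * 2 ^ (δ * k) * (N : ℝ) ^ (δ * k)) ^ k :=
          pow_le_pow_left₀ (by positivity) h3 k
      _ = M * ((N : ℝ) ^ (δ * k)) ^ k := by rw [mul_pow]
      _ = M * (N : ℝ) ^ (δ * k * k) := by
          rw [← Real.rpow_natCast ((N : ℝ) ^ (δ * k)), ← Real.rpow_mul (by positivity)]
      _ ≤ M * (N : ℝ) ^ ε := by
          apply mul_le_mul_of_nonneg_left _ (by positivity)
          apply Real.rpow_le_rpow_of_exponent_le hNr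
          rw [hδ, mul_assoc, div_mul_eq_mul_div, div_le_iff₀ (by positivity)]
          nlinarith
  · rw [ck_zero_of hN b k n hn, norm_zero]
    positivity

theorem log_le (k : ℕ) (ε : ℝ) (hε : 0 < ε) : ∃ C : ℝ, 1 ≤ C ∧ ∀ N : ℕ, 1 ≤ N →
    (1 + Real.log (((2 * N) ^ k : ℕ) : ℝ)) ^ 2 ≤ C * (N : ℝ) ^ ε := by
  set δ : ℝ := ε / 2 with hδ
  have hδ0 : 0 < δ := by positivity
  refine ⟨(1 + k * (2 ^ δ / δ)) ^ 2, ?_, ?_⟩
  · apply one_le_pow₀
    have : (0 : ℝ) ≤ k * (2 ^ δ / δ) := by positivity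
    linarith
  · intro N hN
    have hNr : (1 : ℝ) ≤ N := by exact_mod_cast hN
    have h1 : Real.log (((2 * N) ^ k : ℕ) : ℝ) = k * Real.log (2 * N) := by
      push_cast
      rw [Real.log_pow]
    have h2 : Real.log (2 * N) ≤ (2 * N : ℝ) ^ δ / δ := Real.log_le_rpow_div (by positivity) hδ0
    have h3 : (1 : ℝ) ≤ (N : ℝ) ^ δ := Real.one_le_rpow hNr hδ0.le
    have h4 : 0 ≤ Real.log (2 * N) := Real.log_nonneg (by linarith)
    have h5 : 1 + Real.log (((2 * N) ^ k : ℕ) : ℝ) ≤ (1 + k * (2 ^ δ / δ)) * (N : ℝ) ^ δ := by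
      rw [h1]
      calc 1 + k * Real.log (2 * N) ≤ (N : ℝ) ^ δ + k * ((2 * N : ℝ) ^ δ / δ) :=
            add_le_add h3 (mul_le_mul_of_nonneg_left h2 (by positivity))
        _ = _ := by
            rw [Real.mul_rpow (by norm_num) (by positivity)]
            ring
    have h6 : 0 ≤ 1 + Real.log (((2 * N) ^ k : ℕ) : ℝ) := by
      rw [h1]
      positivity
    calc (1 + Real.log (((2 * N) ^ k : ℕ) : ℝ)) ^ 2 ≤ ((1 + k * (2 ^ δ / δ)) * (N : ℝ) ^ δ) ^ 2 :=
          pow_le_pow_left₀ h6 h5 2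
      _ = (1 + k * (2 ^ δ / δ)) ^ 2 * (N : ℝ) ^ ε := by
          rw [mul_pow, ← Real.rpow_natCast ((N : ℝ) ^ δ), ← Real.rpow_mul (by positivity)]
          congr 2
          rw [hδ]
          push_cast
          ring

theorem filter_sum_le {Q : ℕ} [NeZero Q] (J : Finset ℕ) (w : ℕ → ℝ) (hw : ∀ n, 0 ≤ w n) :
    ∑ a : (ZMod Q)ˣ, ∑ m ∈ J.filter (fun m : ℕ => (m : ZMod Q) = a), w m ≤ ∑ m ∈ J, w m := by
  classical
  simp only [sum_filter]
  rw [sum_comm]
  apply sum_le_sum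
  intro m _
  by_cases hu : IsUnit (m : ZMod Q)
  · obtain ⟨u, hu⟩ := hu
    rw [Finset.sum_eq_single u, if_pos hu.symm]
    · intro v _ hv
      rw [if_neg]
      intro h
      apply hv
      ext
      rw [hu, h]
    · intro h
      exact absurd (mem_univ u) h
  · rw [sum_eq_zero]
    · exact hw m
    · intro a _
      rw [if_neg]
      intro h
      apply hu
      rw [h]
      exact a.isUnit

/-- the `2k`-th moment on average over the characters -/
theorem moment (k : ℕ) (ε : ℝ) (hε : 0 < ε) : ∃ C : ℝ, 1 ≤ C ∧ ∀ (N S Q : ℕ) [NeZero Q] (b : ℕ → ℂ),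
    1 ≤ N → 1 ≤ S → (∀ n ∈ Icc N (2 * N), ‖b n‖ ≤ 1) →
    ∑ χ : DirichletCharacter ℂ Q, ∑ s ∈ Icc 1 S, ‖D χ N b s‖ ^ (2 * k) ≤
      Q.totient * (C * (N : ℝ) ^ ε * (S + (N : ℝ) ^ k / Q) * (N : ℝ) ^ k) := by
  obtain ⟨C1, hC11, hC1⟩ := ck_le k (ε / 3) (by positivity)
  obtain ⟨C2, hC21, hC2⟩ := log_le k (ε / 3) (by positivity)
  refine ⟨26 * C2 * C1 ^ 2 * 4 ^ k, ?_, ?_⟩
  · have a1 : (1 : ℝ) ≤ C1 ^ 2 := one_le_pow₀ hC11
    have a2 : (1 : ℝ) ≤ 4 ^ k := one_le_pow₀ (by norm_num)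
    have a3 : (1 : ℝ) ≤ 26 * C2 := by linarith
    have a4 : (1 : ℝ) ≤ 26 * C2 * C1 ^ 2 := by nlinarith
    nlinarith
  · intro N S Q _ b hN hS hb
    have hNr : (1 : ℝ) ≤ N := by exact_mod_cast hN
    have hQ1 : 1 ≤ Q := NeZero.one_le
    set M : ℕ := (2 * N) ^ k with hM
    have hM1 : 1 ≤ M := Nat.one_le_pow _ _ (by omega)
    have hpow : ∀ (χ : DirichletCharacter ℂ Q) (s : ℝ), ‖D χ N b s‖ ^ (2 * k) =
        ‖∑ m ∈ Icc 1 M, (ck N b k m * en m s) * χ (m : ZMod Q)‖ ^ 2 := by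
      intro χ s
      have h := pow_twist hN (fun n => χ (n : ZMod Q)) (by simp) (by intro m n _ _; simp) b s k
      unfold D
      rw [mul_comm 2 k, pow_mul, ← norm_pow, h]
      congr 2
      apply sum_congr rfl
      intro m _
      ring
    have e1 : ∑ χ : DirichletCharacter ℂ Q, ∑ s ∈ Icc 1 S, ‖D χ N b s‖ ^ (2 * k) =
        Q.totient * ∑ a : (ZMod Q)ˣ, ∑ s ∈ Icc 1 S,
          ‖∑ m ∈ (Icc 1 M).filter (fun m : ℕ => (m : ZMod Q) = a), ck N b k m * en m s‖ ^ 2 := by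
      rw [sum_comm]
      have : ∀ s ∈ Icc 1 S, ∑ χ : DirichletCharacter ℂ Q, ‖D χ N b s‖ ^ (2 * k) =
          (Q.totient : ℝ) * ∑ a : (ZMod Q)ˣ,
          ‖∑ m ∈ (Icc 1 M).filter (fun m : ℕ => (m : ZMod Q) = a), ck N b k m * en m s‖ ^ 2 := by
        intro s _
        simp only [hpow]
        exact parseval (Icc 1 M) _
      rw [sum_congr rfl this, ← mul_sum, sum_comm]
    rw [e1]
    apply mul_le_mul_of_nonneg_left _ (by positivity)
    have hlog0 : 0 ≤ 26 * (1 + Real.log M) ^ 2 * (S + (M : ℝ) / Q) := by positivity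
    calc ∑ a : (ZMod Q)ˣ, ∑ s ∈ Icc 1 S,
          ‖∑ m ∈ (Icc 1 M).filter (fun m : ℕ => (m : ZMod Q) = a), ck N b k m * en m s‖ ^ 2
        ≤ ∑ a : (ZMod Q)ˣ, 26 * (1 + Real.log M) ^ 2 * (S + (M : ℝ) / Q) *
          ∑ m ∈ (Icc 1 M).filter (fun m : ℕ => (m : ZMod Q) = a), ‖ck N b k m‖ ^ 2 := by
          apply sum_le_sum
          intro a _
          apply mv M Q S hM1 hQ1 hS
          · intro m hm
            exact mem_Icc.1 (mem_filter.1 hm).1
          · intro m hm n hn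
            have h1 := (mem_filter.1 hm).2
            have h2 := (mem_filter.1 hn).2
            rw [← ZMod.intCast_eq_intCast_iff_dvd_sub]
            push_cast
            rw [h1, h2]
      _ = 26 * (1 + Real.log M) ^ 2 * (S + (M : ℝ) / Q) * ∑ a : (ZMod Q)ˣ,
          ∑ m ∈ (Icc 1 M).filter (fun m : ℕ => (m : ZMod Q) = a), ‖ck N b k m‖ ^ 2 := by
          rw [mul_sum]
      _ ≤ 26 * (1 + Real.log M) ^ 2 * (S + (M : ℝ) / Q) * ∑ m ∈ Icc 1 M, ‖ck N b k m‖ ^ 2 :=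
          mul_le_mul_of_nonneg_left (filter_sum_le _ _ fun _ => by positivity) hlog0
      _ ≤ 26 * (1 + Real.log M) ^ 2 * (S + (M : ℝ) / Q) * ∑ _m ∈ Icc 1 M,
            (C1 * (N : ℝ) ^ (ε / 3)) ^ 2 := by
          apply mul_le_mul_of_nonneg_left _ hlog0
          apply sum_le_sum
          intro m _
          exact pow_le_pow_left₀ (norm_nonneg _) (hC1 N b hN hb m) 2
      _ = 26 * (1 + Real.log M) ^ 2 * (S + (M : ℝ) / Q) * (M * (C1 * (N : ℝ) ^ (ε / 3)) ^ 2) := by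
          rw [sum_const, Nat.card_Icc, Nat.add_sub_cancel, nsmul_eq_mul]
      _ ≤ 26 * (C2 * (N : ℝ) ^ (ε / 3)) * (2 ^ k * (S + (N : ℝ) ^ k / Q)) *
            (M * (C1 * (N : ℝ) ^ (ε / 3)) ^ 2) := by
          apply mul_le_mul_of_nonneg_right _ (by positivity)
          apply mul_le_mul
          · exact mul_le_mul_of_nonneg_left (hC2 N hN) (by norm_num)
          · rw [mul_add]
            apply add_le_add
            · have : (1 : ℝ) ≤ 2 ^ k := one_le_pow₀ (by norm_num)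
              have hS0 : (0 : ℝ) ≤ S := by positivity
              nlinarith
            · rw [hM]
              push_cast
              rw [mul_pow, mul_div_assoc]
          · positivity
          · positivity
      _ = _ := by
          have e2 : (N : ℝ) ^ ε = (N : ℝ) ^ (ε / 3) * ((N : ℝ) ^ (ε / 3)) ^ 2 := by
            rw [← Real.rpow_natCast ((N : ℝ) ^ (ε / 3)), ← Real.rpow_mul (by positivity),
              ← Real.rpow_add (by positivity)]
            congr 1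
            push_cast
            ring
          have e3 : (4 : ℝ) ^ k = 2 ^ k * 2 ^ k := by rw [← mul_pow]; norm_num
          have e4 : ((2 : ℝ) * N) ^ k = 2 ^ k * (N : ℝ) ^ k := mul_pow _ _ _
          rw [e2, e3, hM]
          push_cast
          rw [e4]
          ring

end Pool.Agent.K6.H60.MC
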