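import Pool.Agent.K6.H70.MT.Mean2
import Pool.Agent.K6.H1.MQ.Pow

set_option autoImplicit false

/-! The mean value theorem for Dirichlet polynomials supported on a residue class. -/

namespace Pool.Agent.K6.H60.MC

open Finset
open Pool.Agent.K6.H1.MQ (en)
open Pool.Agent.K6.H70.MT (kk kk_sq kk_le kk_le' window_le sub_window harm_le log_sub_ge)

theorem shifts_gen {ι : Type*} (A : Finset ι) (a : ι → ℂ) (lam : ι → ℝ) (R : ℕ)
    (K : ι → ι → ℝ) (hK : ∀ i ∈ A, ∀ j ∈ A, ‖kk R (lam i - lam j)‖ ^ 2 ≤ K i j)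
    (hsymm : ∀ i j, K i j = K j i) (B : ℝ) (hB : ∀ i ∈ A, ∑ j ∈ A, K i j ≤ B) :
    ∑ u ∈ range R, ∑ w ∈ range R,
      ‖∑ i ∈ A, a i * Complex.exp (Complex.I * ((((u : ℝ) - w) * lam i : ℝ) : ℂ))‖ ^ 2 ≤
      B * ∑ i ∈ A, ‖a i‖ ^ 2 := by
  have h1 : ((∑ u ∈ range R, ∑ w ∈ range R,
      ‖∑ i ∈ A, a i * Complex.exp (Complex.I * ((((u : ℝ) - w) * lam i : ℝ) : ℂ))‖ ^ 2 : ℝ) : ℂ) =
      ∑ i ∈ A, ∑ j ∈ A, a i * (starRingEnd ℂ) (a j) * ((‖kk R (lam i - lam j)‖ ^ 2 : ℝ) : ℂ) := by
    simp only [kk_sq]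
    push_cast
    have h2 : ∀ u ∈ range R, ∀ w ∈ range R,
        ((‖∑ i ∈ A, a i * Complex.exp (Complex.I * ((((u : ℝ) - w) * lam i : ℝ) : ℂ))‖ : ℂ)) ^ 2 =
        ∑ i ∈ A, ∑ j ∈ A, a i * (starRingEnd ℂ) (a j) *
          Complex.exp (Complex.I * ((((u : ℝ) - w) * (lam i - lam j) : ℝ) : ℂ)) := by
      intro u _ w _
      rw [← Complex.conj_mul', mul_comm, map_sum, sum_mul_sum]
      apply sum_congr rfl
      intro i _
      apply sum_congr rfl
      intro j _
      rw [map_mul, ← Complex.exp_conj, map_mul, Complex.conj_I, Complex.conj_ofReal]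
      rw [show a i * Complex.exp (Complex.I * ((((u : ℝ) - w) * lam i : ℝ) : ℂ)) *
          ((starRingEnd ℂ) (a j) * Complex.exp (-Complex.I * ((((u : ℝ) - w) * lam j : ℝ) : ℂ))) =
          a i * (starRingEnd ℂ) (a j) * (Complex.exp (Complex.I * ((((u : ℝ) - w) * lam i : ℝ) : ℂ)) *
            Complex.exp (-Complex.I * ((((u : ℝ) - w) * lam j : ℝ) : ℂ))) by ring]
      rw [← Complex.exp_add]
      congr 2
      push_cast
      ring
    have h3 : ∑ u ∈ range R, ∑ w ∈ range R,
        ((‖∑ i ∈ A, a i * Complex.exp (Complex.I * (((u : ℂ) - w) * (lam i : ℂ)))‖ : ℂ)) ^ 2 =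
        ∑ u ∈ range R, ∑ w ∈ range R, ∑ i ∈ A, ∑ j ∈ A, a i * (starRingEnd ℂ) (a j) *
          Complex.exp (Complex.I * (((u : ℂ) - w) * ((lam i : ℂ) - lam j))) := by
      apply sum_congr rfl
      intro u hu
      apply sum_congr rfl
      intro w hw
      have := h2 u hu w hw
      push_cast at this
      exact this
    rw [h3]
    calc ∑ u ∈ range R, ∑ w ∈ range R, ∑ i ∈ A, ∑ j ∈ A, a i * (starRingEnd ℂ) (a j) *
          Complex.exp (Complex.I * (((u : ℂ) - w) * ((lam i : ℂ) - lam j)))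
        = ∑ u ∈ range R, ∑ i ∈ A, ∑ j ∈ A, ∑ w ∈ range R, a i * (starRingEnd ℂ) (a j) *
          Complex.exp (Complex.I * (((u : ℂ) - w) * ((lam i : ℂ) - lam j))) := by
          apply sum_congr rfl
          intro u _
          rw [sum_comm]
          apply sum_congr rfl
          intro i _
          rw [sum_comm]
      _ = ∑ i ∈ A, ∑ j ∈ A, ∑ u ∈ range R, ∑ w ∈ range R, a i * (starRingEnd ℂ) (a j) *
          Complex.exp (Complex.I * (((u : ℂ) - w) * ((lam i : ℂ) - lam j))) := by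
          rw [sum_comm]
          apply sum_congr rfl
          intro i _
          rw [sum_comm]
      _ = _ := by
          apply sum_congr rfl
          intro i _
          apply sum_congr rfl
          intro j _
          rw [mul_sum]
          apply sum_congr rfl
          intro u _
          rw [mul_sum]
  have h0 : 0 ≤ ∑ u ∈ range R, ∑ w ∈ range R,
      ‖∑ i ∈ A, a i * Complex.exp (Complex.I * ((((u : ℝ) - w) * lam i : ℝ) : ℂ))‖ ^ 2 :=
    sum_nonneg fun _ _ => sum_nonneg fun _ _ => by positivity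
  calc ∑ u ∈ range R, ∑ w ∈ range R,
      ‖∑ i ∈ A, a i * Complex.exp (Complex.I * ((((u : ℝ) - w) * lam i : ℝ) : ℂ))‖ ^ 2
      = ‖((∑ u ∈ range R, ∑ w ∈ range R,
      ‖∑ i ∈ A, a i * Complex.exp (Complex.I * ((((u : ℝ) - w) * lam i : ℝ) : ℂ))‖ ^ 2 : ℝ) : ℂ)‖ := by
        rw [Complex.norm_real, Real.norm_of_nonneg h0]
    _ ≤ ∑ i ∈ A, ∑ j ∈ A, ‖a i‖ * ‖a j‖ * ‖kk R (lam i - lam j)‖ ^ 2 := by
        rw [h1]
        refine (norm_sum_le _ _).trans (sum_le_sum fun i _ => (norm_sum_le _ _).trans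
          (sum_le_sum fun j _ => ?_))
        rw [norm_mul, norm_mul, Complex.norm_conj, Complex.norm_real,
          Real.norm_of_nonneg (by positivity)]
    _ ≤ ∑ i ∈ A, ∑ j ∈ A, (‖a i‖ ^ 2 / 2 * K i j + ‖a j‖ ^ 2 / 2 * K i j) := by
        refine sum_le_sum fun i hi => sum_le_sum fun j hj => ?_
        have hk := hK i hi j hj
        have hk0 : 0 ≤ K i j := le_trans (by positivity) hk
        have : ‖a i‖ * ‖a j‖ ≤ ‖a i‖ ^ 2 / 2 + ‖a j‖ ^ 2 / 2 := by
          nlinarith [sq_nonneg (‖a i‖ - ‖a j‖)]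
        calc ‖a i‖ * ‖a j‖ * ‖kk R (lam i - lam j)‖ ^ 2 ≤ ‖a i‖ * ‖a j‖ * K i j :=
              mul_le_mul_of_nonneg_left hk (by positivity)
          _ ≤ (‖a i‖ ^ 2 / 2 + ‖a j‖ ^ 2 / 2) * K i j := mul_le_mul_of_nonneg_right this hk0
          _ = _ := by ring
    _ = ∑ i ∈ A, ‖a i‖ ^ 2 / 2 * ∑ j ∈ A, K i j + ∑ j ∈ A, ‖a j‖ ^ 2 / 2 * ∑ i ∈ A, K j i := by
        simp only [sum_add_distrib]
        congr 1
        · apply sum_congr rfl
          intro i _
          rw [mul_sum]
        · rw [sum_comm]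
          apply sum_congr rfl
          intro i _
          rw [mul_sum]
          apply sum_congr rfl
          intro j _
          rw [hsymm]
    _ ≤ ∑ i ∈ A, ‖a i‖ ^ 2 / 2 * B + ∑ j ∈ A, ‖a j‖ ^ 2 / 2 * B := by
        apply add_le_add
        · exact sum_le_sum fun i hi => mul_le_mul_of_nonneg_left (hB i hi) (by positivity)
        · exact sum_le_sum fun i hi => mul_le_mul_of_nonneg_left (hB i hi) (by positivity)
    _ = B * ∑ i ∈ A, ‖a i‖ ^ 2 := by
        rw [mul_sum, ← sum_add_distrib]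
        apply sum_congr rfl
        intro i _
        ring

/-- harmonic sum over a residue class -/
theorem harm_class (J : Finset ℕ) {M Q : ℕ} (hM : 1 ≤ M) (hQ : 1 ≤ Q)
    (hJ : ∀ m ∈ J, 1 ≤ m ∧ m ≤ M) (hc : ∀ m ∈ J, ∀ n ∈ J, (Q : ℤ) ∣ (m : ℤ) - n) {m : ℕ} (hm : m ∈ J) :
    ∑ n ∈ J, (if n = m then (0 : ℝ) else 1 / |((m : ℝ) - n)|) ≤ 2 * (1 + Real.log M) / Q := by
  classical
  set f : ℕ → ℤ := fun n => ((n : ℤ) - m) / Q with hf
  have hQ0 : (Q : ℤ) ≠ 0 := by exact_mod_cast (by omega : Q ≠ 0)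
  have hfm : ∀ n ∈ J, f n * Q = (n : ℤ) - m := fun n hn => Int.ediv_mul_cancel (hc n hn m hm)
  have hinj : ∀ x ∈ J, ∀ y ∈ J, f x = f y → x = y := by
    intro x hx y hy h
    have h1 := hfm x hx
    have h2 := hfm y hy
    rw [h, h2] at h1
    omega
  have h0 : (0 : ℤ) ∈ J.image f := by
    rw [mem_image]
    exact ⟨m, hm, by simp [hf]⟩
  have hH : ∀ x ∈ J.image f, ∀ y ∈ J.image f, |x - y| ≤ (M : ℤ) := by
    intro x hx y hy
    rw [mem_image] at hx hy
    obtain ⟨n, hn, rfl⟩ := hx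
    obtain ⟨k, hk, rfl⟩ := hy
    have h1 : (f n - f k) * Q = (n : ℤ) - k := by rw [sub_mul, hfm n hn, hfm k hk]; ring
    have h2 : |f n - f k| * Q = |(n : ℤ) - k| := by rw [← h1, abs_mul, Nat.abs_cast]
    have h3 : |(n : ℤ) - k| ≤ M := by
      have := hJ n hn
      have := hJ k hk
      rw [abs_le]
      constructor <;> omega
    have h4 : |f n - f k| ≤ |f n - f k| * Q := by
      have : (1 : ℤ) ≤ Q := by exact_mod_cast hQ
      nlinarith [abs_nonneg (f n - f k)]
    omega
  have h1 := harm_le (J.image f) M hH 0 h0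
  rcases h1 with h1 | h1
  · rw [sum_image hinj] at h1
    rw [le_div_iff₀ (by exact_mod_cast (by omega : 0 < Q)), sum_mul]
    refine le_trans (le_of_eq ?_) h1
    apply sum_congr rfl
    intro n hn
    by_cases hnm : n = m
    · rw [if_pos hnm, if_pos (by rw [hnm]; simp [hf]), zero_mul]
    · have hne : f n ≠ 0 := by
        intro h
        have := hfm n hn
        rw [h] at this
        apply hnm
        omega
      rw [if_neg hnm, if_neg hne]
      have h5 : ((f n : ℤ) : ℝ) * Q = (n : ℝ) - m := by exact_mod_cast hfm n hn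
      have h6 : |(m : ℝ) - n| = |((f n : ℤ) : ℝ)| * Q := by
        rw [abs_sub_comm, ← h5, abs_mul, Nat.abs_cast]
      rw [h6]
      have hq : (Q : ℝ) ≠ 0 := by exact_mod_cast (by omega : Q ≠ 0)
      have hfr : |((f n : ℤ) : ℝ)| ≠ 0 := by
        rw [abs_ne_zero]
        exact_mod_cast hne
      have h7 : |((0 - f n : ℤ) : ℝ)| = |((f n : ℤ) : ℝ)| := by
        push_cast
        rw [zero_sub, abs_neg]
      rw [h7]
      field_simp
  · omega

theorem mv (M Q T : ℕ) (hM : 1 ≤ M) (hQ : 1 ≤ Q) (hT : 1 ≤ T) (J : Finset ℕ)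
    (hJ : ∀ m ∈ J, 1 ≤ m ∧ m ≤ M) (hc : ∀ m ∈ J, ∀ n ∈ J, (Q : ℤ) ∣ (m : ℤ) - n) (c : ℕ → ℂ) :
    ∑ t ∈ Icc 1 T, ‖∑ m ∈ J, c m * en m t‖ ^ 2 ≤
      26 * (1 + Real.log M) ^ 2 * (T + (M : ℝ) / Q) * ∑ m ∈ J, ‖c m‖ ^ 2 := by
  set L : ℕ := ⌈Real.log M⌉₊ + 1 with hL
  have hlog : 0 ≤ Real.log M := Real.log_natCast_nonneg M
  have hL1 : Real.log M ≤ L := by
    rw [hL]
    push_cast
    linarith [Nat.le_ceil (Real.log M)]
  have hL2 : (L : ℝ) ≤ 2 * (1 + Real.log M) := by
    rw [hL]
    push_cast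
    linarith [Nat.ceil_lt_add_one hlog]
  have hLpos : 1 ≤ L := by omega
  have hLr : (1 : ℝ) ≤ L := by exact_mod_cast hLpos
  have hLr0 : (0 : ℝ) < L := by linarith
  set lam : ℕ → ℝ := fun m => Real.log m / L with hlam
  set g : ℤ → ℝ := fun s => ‖∑ m ∈ J, c m * Complex.exp (Complex.I * (((s : ℝ) * lam m : ℝ) : ℂ))‖ ^ 2
    with hg
  have hg0 : ∀ s, 0 ≤ g s := fun s => by rw [hg]; positivity
  have e1 : ∀ t : ℕ, g ((L * t : ℕ) : ℤ) = ‖∑ m ∈ J, c m * en m t‖ ^ 2 := by
    intro t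
    rw [hg]
    simp only
    congr 2
    apply sum_congr rfl
    intro m _
    unfold en
    congr 2
    rw [hlam]
    push_cast
    have : (L : ℂ) ≠ 0 := by exact_mod_cast (by omega : L ≠ 0)
    field_simp
  set S : ℕ := L * T with hS
  set R : ℕ := 2 * S with hR
  have hS1 : 1 ≤ S := Nat.mul_pos hLpos hT
  have hRpos : (0 : ℝ) < R := by
    rw [hR]
    push_cast
    have : (1 : ℝ) ≤ S := by exact_mod_cast hS1
    linarith
  have s1 : ∑ t ∈ Icc 1 T, ‖∑ m ∈ J, c m * en m t‖ ^ 2 ≤ ∑ s ∈ Icc 1 S, g s := by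
    simp only [← e1]
    exact sub_window g hg0 L T hLpos
  have s2 := window_le g hg0 S R (by omega)
  set K : ℕ → ℕ → ℝ := fun m n => if m = n then (R : ℝ) ^ 2 else
    R * Real.pi * L * M * (1 / |(m : ℝ) - n|) with hK
  have hpi := Real.pi_pos
  have hMr : (1 : ℝ) ≤ M := by exact_mod_cast hM
  have hQr : (1 : ℝ) ≤ Q := by exact_mod_cast hQ
  have s3 : ∑ u ∈ range R, ∑ w ∈ range R, g ((u : ℤ) - w) ≤
      ((R : ℝ) ^ 2 + R * Real.pi * L * M * (2 * (1 + Real.log M) / Q)) * ∑ m ∈ J, ‖c m‖ ^ 2 := by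
    have := shifts_gen J c lam R K ?_ ?_
      ((R : ℝ) ^ 2 + R * Real.pi * L * M * (2 * (1 + Real.log M) / Q)) ?_
    · refine le_trans (le_of_eq ?_) this
      apply sum_congr rfl
      intro u _
      apply sum_congr rfl
      intro w _
      rw [hg]
      simp only
      congr 3
      ext m
      congr 3
      push_cast
      ring
    · intro m hm n hn
      rw [hK]
      simp only
      split_ifs with h
      · exact pow_le_pow_left₀ (norm_nonneg _) (kk_le _ _) 2
      · have hm' := hJ m hm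
        have hn' := hJ n hn
        have hne : (m : ℝ) - n ≠ 0 := by
          rw [sub_ne_zero]
          exact_mod_cast h
        have h1 := log_sub_ge (x := (m : ℤ)) (y := (n : ℤ)) (by omega) (by omega) (B := (M : ℝ))
          (by exact_mod_cast hm'.2) (by exact_mod_cast hn'.2)
        push_cast at h1
        have hd : lam m - lam n = (Real.log m - Real.log n) / L := by
          rw [hlam]
          simp only
          ring
        have hpos : 0 < |(m : ℝ) - n| := abs_pos.2 hne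
        have h2 : |(m : ℝ) - n| / M / L ≤ |lam m - lam n| := by
          rw [hd, abs_div, abs_of_pos hLr0]
          exact div_le_div_of_nonneg_right h1 hLr0.le
        have h3 : 0 < |(m : ℝ) - n| / M / L := by positivity
        have hx0 : lam m - lam n ≠ 0 := by
          intro h4
          rw [h4, abs_zero] at h2
          linarith
        have h5 : |lam m - lam n| ≤ Real.pi := by
          rw [hd, abs_div, abs_of_pos hLr0]
          have h6 : |Real.log m - Real.log n| ≤ Real.log M := by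
            have a1 : 0 ≤ Real.log m := Real.log_natCast_nonneg m
            have a2 : 0 ≤ Real.log n := Real.log_natCast_nonneg n
            have a3 : Real.log m ≤ Real.log M := Real.log_le_log (by exact_mod_cast hm'.1)
              (by exact_mod_cast hm'.2)
            have a4 : Real.log n ≤ Real.log M := Real.log_le_log (by exact_mod_cast hn'.1)
              (by exact_mod_cast hn'.2)
            rw [abs_le]
            constructor <;> linarith
          have h7 : |Real.log m - Real.log n| / L ≤ 1 := by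
            rw [div_le_one hLr0]
            linarith
          linarith [Real.pi_gt_three]
        have h6 := kk_le' R hx0 h5
        have h7 := kk_le R (lam m - lam n)
        calc ‖kk R (lam m - lam n)‖ ^ 2 = ‖kk R (lam m - lam n)‖ * ‖kk R (lam m - lam n)‖ := sq _
          _ ≤ R * (Real.pi / |lam m - lam n|) := mul_le_mul h7 h6 (norm_nonneg _) hRpos.le
          _ ≤ R * (Real.pi / (|(m : ℝ) - n| / M / L)) := by
              apply mul_le_mul_of_nonneg_left _ hRpos.le
              exact div_le_div_of_nonneg_left hpi.le h3 h2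
          _ = _ := by field_simp
    · intro m n
      rw [hK]
      simp only
      by_cases h : m = n
      · rw [if_pos h, if_pos h.symm]
      · rw [if_neg h, if_neg (fun h' => h h'.symm), abs_sub_comm]
    · intro m hm
      have h1 := harm_class J hM hQ hJ hc hm
      calc ∑ n ∈ J, K m n = ∑ n ∈ J, ((if n = m then (R : ℝ) ^ 2 else 0) +
            R * Real.pi * L * M * (if n = m then 0 else 1 / |(m : ℝ) - n|)) := by
              apply sum_congr rfl
              intro n _
              rw [hK]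
              simp only
              by_cases h : n = m
              · rw [if_pos h.symm, if_pos h, if_pos h]; ring
              · rw [if_neg (fun h' => h h'.symm), if_neg h, if_neg h]; ring
        _ = (R : ℝ) ^ 2 + R * Real.pi * L * M *
            ∑ n ∈ J, (if n = m then 0 else 1 / |(m : ℝ) - n|) := by
              rw [sum_add_distrib, ← mul_sum]
              congr 1
              rw [sum_ite_eq' J m, if_pos hm]
        _ ≤ _ := by
              apply add_le_add le_rfl
              exact mul_le_mul_of_nonneg_left h1 (by positivity)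
  have hc0 : 0 ≤ ∑ m ∈ J, ‖c m‖ ^ 2 := sum_nonneg fun _ _ => by positivity
  set W : ℝ := ∑ m ∈ J, ‖c m‖ ^ 2 with hW
  have s4 : ∑ s ∈ Icc 1 S, g s ≤ (2 * R + 4 * Real.pi * L * (M / Q) * (1 + Real.log M)) * W := by
    have h1 := s2.trans s3
    have h2 : (R : ℝ) / 2 * ∑ s ∈ Icc 1 S, g s ≤
        (R : ℝ) / 2 * ((2 * R + 4 * Real.pi * L * (M / Q) * (1 + Real.log M)) * W) := by
      refine h1.trans (le_of_eq ?_)
      field_simp
      ring
    exact le_of_mul_le_mul_left h2 (by positivity)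
  refine (s1.trans s4).trans ?_
  apply mul_le_mul_of_nonneg_right _ hc0
  have hRe : (R : ℝ) = 2 * (L * T) := by rw [hR, hS]; push_cast; ring
  have hT0 : (0 : ℝ) ≤ T := by positivity
  have hMQ : (0 : ℝ) ≤ (M : ℝ) / Q := by positivity
  set l : ℝ := 1 + Real.log M with hl
  have hl1 : 1 ≤ l := by linarith
  rw [hRe]
  have p1 : Real.pi ≤ 3.15 := by linarith [Real.pi_lt_d2]
  have h1 : 2 * (2 * (L * T)) ≤ 26 * l ^ 2 * (T : ℝ) := by
    have : (L : ℝ) * T ≤ 2 * l * T := mul_le_mul_of_nonneg_right hL2 hT0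
    nlinarith [mul_nonneg (sub_nonneg.2 hl1) hT0, mul_nonneg (mul_nonneg (sub_nonneg.2 hl1) hT0) (by linarith : (0:ℝ) ≤ l)]
  have h2 : 4 * Real.pi * L * ((M : ℝ) / Q) * l ≤ 26 * l ^ 2 * ((M : ℝ) / Q) := by
    have a1 : 4 * Real.pi * L ≤ 26 * l := by nlinarith
    calc 4 * Real.pi * L * ((M : ℝ) / Q) * l ≤ 26 * l * ((M : ℝ) / Q) * l := by
          apply mul_le_mul_of_nonneg_right _ (by linarith)
          exact mul_le_mul_of_nonneg_right a1 hMQ
      _ = _ := by ring
  linarith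

end Pool.Agent.K6.H60.MC
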