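import Pool.Agent.K6.H60.MC.Mom

set_option autoImplicit false

/-! Random completely multiplicative twists. -/

namespace Pool.Agent.K6.H60.MC

open Finset MeasureTheory ProbabilityTheory Filter
open Pool.Agent.K6.H1.MQ (en ck ck_zero_of ck_bound pow_eq DD)

/-- the completely multiplicative function with the values `x p` at the primes `p` -/
noncomputable def cm (x : ℕ → ℂ) (n : ℕ) : ℂ := n.factorization.prod fun p k => x p ^ k

theorem cm_one (x : ℕ → ℂ) : cm x 1 = 1 := by simp [cm]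

theorem cm_mul (x : ℕ → ℂ) (m n : ℕ) (hm : 1 ≤ m) (hn : 1 ≤ n) : cm x (m * n) = cm x m * cm x n := by
  unfold cm
  rw [Nat.factorization_mul (by omega) (by omega), Finsupp.prod_add_index']
  · intro p; exact pow_zero _
  · intro p a b; exact pow_add _ _ _

theorem cm_eq (x : ℕ → ℂ) (n : ℕ) (P : Finset ℕ) (hP : n.primeFactors ⊆ P) :
    cm x n = ∏ p ∈ P, x p ^ n.factorization p := by
  unfold cm
  rw [Finsupp.prod_of_support_subset _ (s := P)]
  · rwa [Nat.support_factorization]
  · intro p _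
    exact pow_zero _

theorem norm_cm {x : ℕ → ℂ} (hx : ∀ p, ‖x p‖ = 1) (n : ℕ) : ‖cm x n‖ = 1 := by
  unfold cm
  rw [Finsupp.prod, norm_prod]
  apply prod_eq_one
  intro p _
  rw [norm_pow, hx, one_pow]

section
variable {Ω : Type*} [MeasurableSpace Ω] {μ : Measure Ω} [IsProbabilityMeasure μ] {X : ℕ → Ω → ℂ}

theorem int_pow (hX : ∀ p ω, ‖X p ω‖ = 1) (h0 : ∀ p k, 1 ≤ k → ∫ ω, X p ω ^ k ∂μ = 0)
    (p a b : ℕ) : ∫ ω, X p ω ^ a * (starRingEnd ℂ) (X p ω) ^ b ∂μ = if a = b then 1 else 0 := by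
  have hc : ∀ ω, X p ω * (starRingEnd ℂ) (X p ω) = 1 := by
    intro ω
    rw [Complex.mul_conj, Complex.normSq_eq_norm_sq, hX]
    norm_num
  rcases lt_trichotomy a b with h | h | h
  · rw [if_neg h.ne]
    have h1 : ∀ ω, X p ω ^ a * (starRingEnd ℂ) (X p ω) ^ b = (starRingEnd ℂ) (X p ω ^ (b - a)) := by
      intro ω
      rw [show b = a + (b - a) by omega, pow_add, ← mul_assoc, ← mul_pow, hc, one_pow, one_mul,
        map_pow, Nat.add_sub_cancel_left]
    simp only [h1]
    rw [integral_conj, h0 p (b - a) (by omega), map_zero]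
  · subst h
    rw [if_pos rfl]
    have h1 : ∀ ω, X p ω ^ a * (starRingEnd ℂ) (X p ω) ^ a = 1 := by
      intro ω
      rw [← mul_pow, hc, one_pow]
    simp only [h1]
    simp
  · rw [if_neg h.ne']
    have h1 : ∀ ω, X p ω ^ a * (starRingEnd ℂ) (X p ω) ^ b = X p ω ^ (a - b) := by
      intro ω
      rw [show a = b + (a - b) by omega, pow_add, mul_right_comm, ← mul_pow, hc, one_pow, one_mul,
        Nat.add_sub_cancel_left]
    simp only [h1]
    exact h0 p (a - b) (by omega)

theorem orth_cm (hm : ∀ p, Measurable (X p)) (hi : iIndepFun X μ) (hX : ∀ p ω, ‖X p ω‖ = 1)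
    (h0 : ∀ p k, 1 ≤ k → ∫ ω, X p ω ^ k ∂μ = 0) (m n : ℕ) (hm1 : 1 ≤ m) (hn1 : 1 ≤ n) :
    ∫ ω, cm (fun p => X p ω) m * (starRingEnd ℂ) (cm (fun p => X p ω) n) ∂μ =
      if m = n then 1 else 0 := by
  classical
  set P : Finset ℕ := m.primeFactors ∪ n.primeFactors with hP
  have h1 : ∀ ω, cm (fun p => X p ω) m * (starRingEnd ℂ) (cm (fun p => X p ω) n) =
      ∏ i : P, (fun z : ℂ => z ^ m.factorization i * (starRingEnd ℂ) z ^ n.factorization i)
        (X i ω) := by
    intro ω
    rw [cm_eq _ m P subset_union_left, cm_eq _ n P subset_union_right, map_prod, ← prod_mul_distrib,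
      ← Finset.prod_coe_sort]
    apply prod_congr rfl
    intro i _
    rw [map_pow]
  simp only [h1]
  have hi2 : iIndepFun (fun i : P => X i) μ := hi.precomp Subtype.val_injective
  have h2 := hi2.integral_fun_prod_comp (f := fun i : P => fun z : ℂ =>
    z ^ m.factorization i * (starRingEnd ℂ) z ^ n.factorization i)
    (fun i => (hm i).aemeasurable) (fun i => by
      apply Measurable.aestronglyMeasurable
      fun_prop)
  rw [h2]
  simp only [int_pow hX h0]
  split_ifs with h
  · subst h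
    simp
  · have h3 : ∃ p, m.factorization p ≠ n.factorization p := by
      by_contra hcon
      push Not at hcon
      exact h (Nat.eq_of_factorization_eq (by omega) (by omega) hcon)
    obtain ⟨p, hp⟩ := h3
    have hpP : p ∈ P := by
      rw [hP, mem_union]
      by_contra hcon
      push Not at hcon
      apply hp
      rw [← Nat.support_factorization, ← Nat.support_factorization, Finsupp.notMem_support_iff,
        Finsupp.notMem_support_iff] at hcon
      rw [hcon.1, hcon.2]
    exact prod_eq_zero (mem_univ (⟨p, hpP⟩ : P)) (if_neg hp)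

theorem meas_cm (hm : ∀ p, Measurable (X p)) (n : ℕ) : Measurable fun ω => cm (fun p => X p ω) n := by
  unfold cm Finsupp.prod
  fun_prop

theorem second (hm : ∀ p, Measurable (X p)) (hi : iIndepFun X μ) (hX : ∀ p ω, ‖X p ω‖ = 1)
    (h0 : ∀ p k, 1 ≤ k → ∫ ω, X p ω ^ k ∂μ = 0) (J : Finset ℕ) (hJ : ∀ m ∈ J, 1 ≤ m) (c : ℕ → ℂ) :
    ∫ ω, ‖∑ m ∈ J, c m * cm (fun p => X p ω) m‖ ^ 2 ∂μ = ∑ m ∈ J, ‖c m‖ ^ 2 := by
  have hint : ∀ m n : ℕ, Integrable (fun ω => (c m * (starRingEnd ℂ) (c n)) *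
      (cm (fun p => X p ω) m * (starRingEnd ℂ) (cm (fun p => X p ω) n))) μ := by
    intro m n
    apply Integrable.of_bound (C := ‖c m‖ * ‖c n‖)
    · apply Measurable.aestronglyMeasurable
      have h1 := meas_cm hm m
      have h2 := meas_cm hm n
      fun_prop
    · refine Filter.Eventually.of_forall fun ω => ?_
      rw [norm_mul, norm_mul, norm_mul, Complex.norm_conj, Complex.norm_conj, norm_cm (hX · ω),
        norm_cm (hX · ω), mul_one, mul_one]
  have h1 : ((∫ ω, ‖∑ m ∈ J, c m * cm (fun p => X p ω) m‖ ^ 2 ∂μ : ℝ) : ℂ) =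
      ((∑ m ∈ J, ‖c m‖ ^ 2 : ℝ) : ℂ) := by
    rw [← integral_complex_ofReal]
    have h2 : ∀ ω, ((‖∑ m ∈ J, c m * cm (fun p => X p ω) m‖ ^ 2 : ℝ) : ℂ) =
        ∑ m ∈ J, ∑ n ∈ J, (c m * (starRingEnd ℂ) (c n)) *
          (cm (fun p => X p ω) m * (starRingEnd ℂ) (cm (fun p => X p ω) n)) := by
      intro ω
      push_cast
      rw [← Complex.conj_mul', mul_comm, map_sum, sum_mul_sum]
      apply sum_congr rfl
      intro m _
      apply sum_congr rfl
      intro n _
      rw [map_mul]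
      ring
    simp only [h2]
    rw [integral_finsetSum _ fun m _ => integrable_finsetSum _ fun n _ => hint m n]
    push_cast
    apply sum_congr rfl
    intro m hmJ
    rw [integral_finsetSum _ fun n _ => hint m n]
    have h3 : ∀ n ∈ J, ∫ ω, (c m * (starRingEnd ℂ) (c n)) *
          (cm (fun p => X p ω) m * (starRingEnd ℂ) (cm (fun p => X p ω) n)) ∂μ =
        if m = n then c m * (starRingEnd ℂ) (c n) else 0 := by
      intro n hnJ
      rw [integral_const_mul, orth_cm hm hi hX h0 m n (hJ m hmJ) (hJ n hnJ)]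
      split_ifs
      · rw [mul_one]
      · rw [mul_zero]
    rw [sum_congr rfl h3, sum_ite_eq J m, if_pos hmJ, Complex.mul_conj']
  exact_mod_cast h1

end

end Pool.Agent.K6.H60.MC
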