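import Pool.Agent.K6.H60.MC.Rnd

set_option autoImplicit false

/-! Random completely multiplicative twists: the pointwise bound. -/

namespace Pool.Agent.K6.H60.MC

open Finset MeasureTheory ProbabilityTheory Filter
open Pool.Agent.K6.H1.MQ (en ck ck_zero_of ck_bound pow_eq DD)

theorem norm_en (n : ℕ) (t : ℝ) : ‖en n t‖ = 1 := by
  unfold en
  rw [show Complex.I * (t : ℂ) * ((Real.log n : ℝ) : ℂ) =
    ((t * Real.log n : ℝ) : ℂ) * Complex.I by push_cast; ring,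
    Complex.norm_exp_ofReal_mul_I]

section
variable {Ω : Type*} [MeasurableSpace Ω] {μ : Measure Ω} [IsProbabilityMeasure μ] {X : ℕ → Ω → ℂ}

/-- the twisted sum over `[u, v]` -/
noncomputable def SS (X : ℕ → Ω → ℂ) (c : ℕ → ℂ) (u v t : ℕ) (ω : Ω) : ℂ :=
  ∑ n ∈ Icc u v, c n * cm (fun p => X p ω) n * en n t

theorem SS_eq (c : ℕ → ℂ) {N u v : ℕ} (hu : N ≤ u) (hv : v ≤ 2 * N) (t : ℕ) (ω : Ω) :
    SS X c u v t ω = ∑ n ∈ Icc N (2 * N), (if n ∈ Icc u v then c n else 0) *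
      cm (fun p => X p ω) n * en n t := by
  classical
  unfold SS
  rw [← Finset.sum_subset (Icc_subset_Icc hu hv)]
  · apply sum_congr rfl
    intro n hn
    rw [if_pos hn]
  · intro n _ hn
    rw [if_neg hn]
    ring

theorem SS_le (hX : ∀ p ω, ‖X p ω‖ = 1) {c : ℕ → ℂ} (hc : ∀ n, ‖c n‖ ≤ 1) {N u v : ℕ} (hN : 1 ≤ N)
    (hu : N ≤ u) (hv : v ≤ 2 * N) (t : ℕ) (ω : Ω) : ‖SS X c u v t ω‖ ≤ 2 * N := by
  unfold SS
  calc _ ≤ ∑ n ∈ Icc u v, ‖c n * cm (fun p => X p ω) n * en n t‖ := norm_sum_le _ _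
    _ ≤ ∑ _n ∈ Icc u v, (1 : ℝ) := by
        apply sum_le_sum
        intro n hn
        rw [norm_mul, norm_mul, norm_en, norm_cm (hX · ω), mul_one, mul_one]
        exact hc n
    _ = ((v + 1 - u : ℕ) : ℝ) := by rw [sum_const, Nat.card_Icc, nsmul_eq_mul, mul_one]
    _ ≤ ((2 * N : ℕ) : ℝ) := by
        apply Nat.cast_le.2
        omega
    _ = _ := by push_cast; ring

theorem meas_SS (hm : ∀ p, Measurable (X p)) (c : ℕ → ℂ) (u v t : ℕ) : Measurable (SS X c u v t) := by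
  unfold SS
  have := fun n => meas_cm hm n
  fun_prop

theorem high (k : ℕ) : ∃ C : ℝ, 0 ≤ C ∧ ∀ (hm : ∀ p, Measurable (X p)) (hi : iIndepFun X μ)
    (hX : ∀ p ω, ‖X p ω‖ = 1) (h0 : ∀ p k, 1 ≤ k → ∫ ω, X p ω ^ k ∂μ = 0) (c : ℕ → ℂ)
    (hc : ∀ n, ‖c n‖ ≤ 1) (N u v t : ℕ), 1 ≤ N → N ≤ u → v ≤ 2 * N →
    ∫ ω, ‖SS X c u v t ω‖ ^ (2 * k) ∂μ ≤ C * (N : ℝ) ^ (k + 2) := by
  classical
  obtain ⟨C1, hC11, hC1⟩ := ck_le k 1 one_pos
  refine ⟨C1 ^ 2 * 2 ^ k, by positivity, ?_⟩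
  intro hm hi hX h0 c hc N u v t hN hu hv
  have hNr : (1 : ℝ) ≤ N := by exact_mod_cast hN
  set b : ℕ → ℂ := fun n => if n ∈ Icc u v then c n else 0 with hb
  have hb1 : ∀ n ∈ Icc N (2 * N), ‖b n‖ ≤ 1 := by
    intro n _
    rw [hb]
    simp only
    split_ifs
    · exact hc n
    · simp
  have h1 : ∀ ω, ‖SS X c u v t ω‖ ^ (2 * k) =
      ‖∑ m ∈ Icc 1 ((2 * N) ^ k), (ck N b k m * en m t) * cm (fun p => X p ω) m‖ ^ 2 := by
    intro ω
    rw [SS_eq c hu hv, mul_comm 2 k, pow_mul, ← norm_pow,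
      pow_twist hN (cm fun p => X p ω) (cm_one _) (cm_mul _) b t k]
    congr 2
    apply sum_congr rfl
    intro m _
    ring
  simp only [h1]
  rw [second hm hi hX h0 _ (fun m hm => (mem_Icc.1 hm).1)]
  calc ∑ m ∈ Icc 1 ((2 * N) ^ k), ‖ck N b k m * en m t‖ ^ 2
      ≤ ∑ _m ∈ Icc 1 ((2 * N) ^ k), (C1 * (N : ℝ) ^ (1 : ℝ)) ^ 2 := by
        apply sum_le_sum
        intro m _
        rw [norm_mul, norm_en, mul_one]
        exact pow_le_pow_left₀ (norm_nonneg _) (hC1 N b hN hb1 m) 2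
    _ = _ := by
        rw [sum_const, Nat.card_Icc, Nat.add_sub_cancel, nsmul_eq_mul, Real.rpow_one]
        push_cast
        rw [mul_pow 2 (N : ℝ) k]
        ring

theorem as_fixed (hm : ∀ p, Measurable (X p)) (hi : iIndepFun X μ) (hX : ∀ p ω, ‖X p ω‖ = 1)
    (h0 : ∀ p k, 1 ≤ k → ∫ ω, X p ω ^ k ∂μ = 0) (b : ℕ → ℕ → ℂ) (hb : ∀ N n, ‖b N n‖ ≤ 1) (j : ℕ) :
    ∀ᵐ ω ∂μ, ∃ K : ℝ, 1 ≤ K ∧ ∀ N : ℕ, 1 ≤ N → ∀ t : ℕ, t ≤ N ^ j → ∀ u v : ℕ, N ≤ u → v ≤ 2 * N →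
      ‖SS X (b N) u v t ω‖ ≤ K * (N : ℝ) ^ (1 / 2 + 1 / ((j : ℝ) + 1)) := by
  classical
  set k : ℕ := (j + 1) * (j + 5) with hk
  obtain ⟨C, hC0, hC⟩ := high (μ := μ) (X := X) k
  set lam : ℕ → ℝ := fun N => (N : ℝ) ^ (1 / 2 + 1 / ((j : ℝ) + 1)) with hlam
  have hlamk : ∀ N : ℕ, 1 ≤ N → lam N ^ (2 * k) = (N : ℝ) ^ (k + 2 * (j + 5)) := by
    intro N hN
    rw [hlam]
    simp only
    rw [← Real.rpow_natCast, ← Real.rpow_mul (by positivity), ← Real.rpow_natCast]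
    congr 1
    rw [hk]
    have : ((j : ℝ) + 1) ≠ 0 := by positivity
    push_cast
    field_simp
  set E : ℕ → Set Ω := fun N => ⋃ t ∈ range (N ^ j + 1), ⋃ u ∈ Icc N (2 * N), ⋃ v ∈ Icc N (2 * N),
    {ω | lam N < ‖SS X (b N) u v t ω‖} with hE
  have hE1 : ∀ N : ℕ, 1 ≤ N → μ.real (E N) ≤ 8 * C * (1 / (N : ℝ) ^ 2) := by
    intro N hN
    have hNr : (1 : ℝ) ≤ N := by exact_mod_cast hN
    have hN0 : (0 : ℝ) < N := by linarith
    have h1 : ∀ t ∈ range (N ^ j + 1), ∀ u ∈ Icc N (2 * N), ∀ v ∈ Icc N (2 * N),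
        μ.real {ω | lam N < ‖SS X (b N) u v t ω‖} ≤ C / (N : ℝ) ^ (2 * j + 8) := by
      intro t _ u hu v hv
      rw [mem_Icc] at hu hv
      have hint : Integrable (fun ω => ‖SS X (b N) u v t ω‖ ^ (2 * k)) μ := by
        apply Integrable.of_bound (C := (2 * N : ℝ) ^ (2 * k))
        · have := meas_SS hm (b N) u v t
          apply Measurable.aestronglyMeasurable
          fun_prop
        · refine Filter.Eventually.of_forall fun ω => ?_
          rw [Real.norm_of_nonneg (by positivity)]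
          exact pow_le_pow_left₀ (norm_nonneg _) (SS_le hX (hb N) hN hu.1 hv.2 t ω) _
      have h2 := mul_meas_ge_le_integral_of_nonneg (μ := μ)
        (f := fun ω => ‖SS X (b N) u v t ω‖ ^ (2 * k))
        (Filter.Eventually.of_forall fun ω => by positivity) hint (lam N ^ (2 * k))
      have h3 := h2.trans (hC hm hi hX h0 (b N) (hb N) N u v t hN hu.1 hv.2)
      rw [hlamk N hN] at h3
      have h4 : μ.real {ω | lam N < ‖SS X (b N) u v t ω‖} ≤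
          μ.real {ω | (N : ℝ) ^ (k + 2 * (j + 5)) ≤ ‖SS X (b N) u v t ω‖ ^ (2 * k)} := by
        refine measureReal_mono ?_ (measure_ne_top _ _)
        intro ω hω
        simp only [Set.mem_ofPred_eq] at hω ⊢
        rw [← hlamk N hN]
        exact pow_le_pow_left₀ (by rw [hlam]; positivity) hω.le _
      refine h4.trans ?_
      have h5 : (0 : ℝ) < (N : ℝ) ^ (k + 2 * (j + 5)) := by positivity
      rw [mul_comm, ← le_div_iff₀ h5] at h3
      refine h3.trans (le_of_eq ?_)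
      rw [div_eq_div_iff (by positivity) (by positivity)]
      rw [show k + 2 * (j + 5) = (k + 2) + (2 * j + 8) by ring, pow_add (N : ℝ) (k + 2) (2 * j + 8)]
      ring
    have h2 : μ.real (E N) ≤ ∑ t ∈ range (N ^ j + 1), ∑ u ∈ Icc N (2 * N), ∑ v ∈ Icc N (2 * N),
        C / (N : ℝ) ^ (2 * j + 8) := by
      rw [hE]
      refine (measureReal_biUnion_finset_le _ _).trans (sum_le_sum fun t ht => ?_)
      refine (measureReal_biUnion_finset_le _ _).trans (sum_le_sum fun u hu => ?_)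
      refine (measureReal_biUnion_finset_le _ _).trans (sum_le_sum fun v hv => ?_)
      exact h1 t ht u hu v hv
    refine h2.trans ?_
    simp only [sum_const, card_range, Nat.card_Icc, nsmul_eq_mul]
    have e1 : ((2 * N + 1 - N : ℕ) : ℝ) ≤ 2 * N := by
      rw [show 2 * N + 1 - N = N + 1 by omega]
      push_cast
      linarith
    have e2 : ((N ^ j + 1 : ℕ) : ℝ) ≤ 2 * (N : ℝ) ^ j := by
      push_cast
      have : (1 : ℝ) ≤ (N : ℝ) ^ j := one_le_pow₀ hNr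
      linarith
    have e3 : 0 ≤ C / (N : ℝ) ^ (2 * j + 8) := by positivity
    calc ((N ^ j + 1 : ℕ) : ℝ) * (((2 * N + 1 - N : ℕ) : ℝ) * (((2 * N + 1 - N : ℕ) : ℝ) *
          (C / (N : ℝ) ^ (2 * j + 8))))
        ≤ (2 * (N : ℝ) ^ j) * ((2 * N) * ((2 * N) * (C / (N : ℝ) ^ (2 * j + 8)))) := by gcongr
      _ = 8 * C * ((N : ℝ) ^ (j + 2) / (N : ℝ) ^ (2 * j + 8)) := by ring
      _ ≤ 8 * C * (1 / (N : ℝ) ^ 2) := by
          apply mul_le_mul_of_nonneg_left _ (by positivity)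
          rw [div_le_div_iff₀ (by positivity) (by positivity), one_mul, ← pow_add]
          exact pow_le_pow_right₀ hNr (by omega)
  have hsumm : ∑' N : ℕ, μ (E (N + 1)) ≠ ⊤ := by
    have h1 : Summable fun N : ℕ => 8 * C * (1 / ((N + 1 : ℕ) : ℝ) ^ 2) := by
      apply Summable.mul_left
      exact (summable_nat_add_iff 1).2 (Real.summable_one_div_nat_pow.2 (by norm_num))
    refine ne_top_of_le_ne_top h1.tsum_ofReal_ne_top (ENNReal.tsum_le_tsum fun N => ?_)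
    rw [← ofReal_measureReal (measure_ne_top _ _)]
    exact ENNReal.ofReal_le_ofReal (hE1 (N + 1) (by omega))
  filter_upwards [ae_eventually_notMem hsumm] with ω hω
  obtain ⟨N0, hN0⟩ := eventually_atTop.1 hω
  refine ⟨2 * N0 + 1, by
    have : (0 : ℝ) ≤ N0 := by positivity
    linarith, ?_⟩
  intro N hN t ht u v hu hv
  have hNr : (1 : ℝ) ≤ N := by exact_mod_cast hN
  have hl1 : 1 ≤ lam N := Real.one_le_rpow hNr (by positivity)
  change _ ≤ (2 * (N0 : ℝ) + 1) * lam N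
  have hN00 : (0 : ℝ) ≤ N0 := by positivity
  rcases le_or_gt N N0 with h | h
  · have h1 := SS_le (X := X) hX (hb N) hN hu hv t ω
    have h2 : (N : ℝ) ≤ N0 := by exact_mod_cast h
    nlinarith
  · rcases le_or_gt u v with huv | huv
    · have h1 := hN0 (N - 1) (by omega)
      rw [Nat.sub_add_cancel hN, hE] at h1
      simp only [Set.mem_iUnion, Set.mem_ofPred_eq, not_exists, not_lt] at h1
      have h2 := h1 t (by rw [mem_range]; omega) u (by rw [mem_Icc]; omega) v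
        (by rw [mem_Icc]; omega)
      nlinarith
    · have : SS X (b N) u v t ω = 0 := by
        unfold SS
        rw [Icc_eq_empty (by omega), sum_empty]
      rw [this, norm_zero]
      positivity

/-- Almost surely all the twisted sums are small. -/
theorem as_all (hm : ∀ p, Measurable (X p)) (hi : iIndepFun X μ) (hX : ∀ p ω, ‖X p ω‖ = 1)
    (h0 : ∀ p k, 1 ≤ k → ∫ ω, X p ω ^ k ∂μ = 0) (b : ℕ → ℕ → ℂ) (hb : ∀ N n, ‖b N n‖ ≤ 1) :
    ∀ᵐ ω ∂μ, ∀ A ε : ℝ, 0 < ε → ∃ K : ℝ, 1 ≤ K ∧ ∀ N : ℕ, 1 ≤ N → ∀ t : ℕ, (t : ℝ) ≤ (N : ℝ) ^ A →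
      ∀ u v : ℕ, N ≤ u → v ≤ 2 * N → ‖SS X (b N) u v t ω‖ ≤ K * (N : ℝ) ^ (1 / 2 + ε) := by
  have h := ae_all_iff.2 fun j : ℕ => as_fixed hm hi hX h0 b hb j
  filter_upwards [h] with ω hω
  intro A ε hε
  set j : ℕ := max ⌈A⌉₊ ⌈1 / ε⌉₊ with hj
  obtain ⟨K, hK1, hK⟩ := hω j
  refine ⟨K, hK1, ?_⟩
  intro N hN t ht u v hu hv
  have hNr : (1 : ℝ) ≤ N := by exact_mod_cast hN
  have h1 : t ≤ N ^ j := by
    have a1 : (N : ℝ) ^ A ≤ (N : ℝ) ^ (j : ℝ) := by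
      apply Real.rpow_le_rpow_of_exponent_le hNr
      refine (Nat.le_ceil A).trans ?_
      exact_mod_cast le_max_left _ _
    have a2 := ht.trans a1
    rw [Real.rpow_natCast] at a2
    exact_mod_cast a2
  refine (hK N hN t h1 u v hu hv).trans ?_
  apply mul_le_mul_of_nonneg_left _ (by linarith)
  apply Real.rpow_le_rpow_of_exponent_le hNr
  have h2 : 1 / ε ≤ (j : ℝ) + 1 := by
    have a1 : (⌈1 / ε⌉₊ : ℝ) ≤ j := by exact_mod_cast le_max_right _ _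
    linarith [Nat.le_ceil (1 / ε)]
  have h3 : 1 / ((j : ℝ) + 1) ≤ ε := by
    rw [div_le_iff₀ (by positivity)]
    rw [div_le_iff₀ hε] at h2
    linarith
  linarith

/-- Montgomery's inequality for almost every random completely multiplicative twist -/
theorem as_q (hm : ∀ p, Measurable (X p)) (hi : iIndepFun X μ) (hX : ∀ p ω, ‖X p ω‖ = 1)
    (h0 : ∀ p k, 1 ≤ k → ∫ ω, X p ω ^ k ∂μ = 0) (b : ℕ → ℕ → ℂ) (hb : ∀ N n, ‖b N n‖ ≤ 1) :
    ∀ᵐ ω ∂μ, ∀ q A ε : ℝ, 0 < q → 0 < ε → ∃ K : ℝ, ∀ N T : ℕ, 1 ≤ N → (T : ℝ) ≤ (N : ℝ) ^ A →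
      ∀ u v : ℕ → ℕ, (∀ t, N ≤ u t ∧ v t ≤ 2 * N) →
        ∑ t ∈ Icc 1 T, ‖SS X (b N) (u t) (v t) t ω‖ ^ q ≤ K * (N : ℝ) ^ ε * ((N : ℝ) ^ (q / 2) * T) := by
  filter_upwards [as_all hm hi hX h0 b hb] with ω hω
  intro q A ε hq hε
  obtain ⟨K, hK1, hK⟩ := hω A (ε / q) (by positivity)
  refine ⟨K ^ q, ?_⟩
  intro N T hN hTA u v huv
  have hNr : (1 : ℝ) ≤ N := by exact_mod_cast hN
  calc ∑ t ∈ Icc 1 T, ‖SS X (b N) (u t) (v t) t ω‖ ^ q
      ≤ ∑ _t ∈ Icc 1 T, (K * (N : ℝ) ^ (1 / 2 + ε / q)) ^ q := by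
        apply sum_le_sum
        intro t ht
        rw [mem_Icc] at ht
        apply Real.rpow_le_rpow (norm_nonneg _) _ hq.le
        apply hK N hN t _ _ _ (huv t).1 (huv t).2
        exact le_trans (by exact_mod_cast ht.2) hTA
    _ = T * (K * (N : ℝ) ^ (1 / 2 + ε / q)) ^ q := by
        rw [sum_const, Nat.card_Icc, Nat.add_sub_cancel, nsmul_eq_mul]
    _ = _ := by
        rw [Real.mul_rpow (by linarith) (by positivity), ← Real.rpow_mul (by positivity),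
          show (1 / 2 + ε / q) * q = q / 2 + ε by field_simp, Real.rpow_add (by linarith)]
        ring

end

end Pool.Agent.K6.H60.MC
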